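import Pool.Agent.MP_d0dfcd_ag.Defs
import Mathlib.Algebra.BigOperators.Group.Finset.Basic

/-! Weighted lower bounds for the degree of forms through points of the plane. -/

namespace Pool.Agent.MP_d0dfcd_ag

/-- Every nonzero form of degree `d` vanishing to order at least `m i` at `(1 : a i : b i)` has
`∑ c i * m i ≤ δ * d`; for `c ≥ 0` this says that `δ H - ∑ c i E i` is nef on the blow-up. -/
def DegBound {K ι : Type*} [Field K] [Fintype ι] (a b : ι → K) (δ : ℝ) (c : ι → ℝ) : Prop :=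
  ∀ (d : ℕ) (m : ι → ℕ) (F : MvPolynomial (Fin 3) K), F ≠ 0 → F.IsHomogeneous d →
    (∀ i, VanishesAt (a i) (b i) (m i) F) → ∑ i, c i * (m i : ℝ) ≤ δ * (d : ℝ)

end Pool.Agent.MP_d0dfcd_ag
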