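import Pool.Agent.MP_d0dfcd_ag.h44.Up
import Pool.Agent.MP_d0dfcd_ag.h44.Defs
import Mathlib.NumberTheory.SumFourSquares
import Mathlib.FieldTheory.IsAlgClosed.AlgebraicClosure
import Mathlib.Analysis.Real.Sqrt

-- ======== part 0: formerly Pool.Agent.MP_d0dfcd_ag.h44.Peel
section MrgPart0

/-! Removing the two components of the invariant curve; nefness upstairs. -/

namespace Pool.Agent.MP_d0dfcd_ag.NB

open MvPolynomial

variable {k : Type*} [Field k]

/-- The component through the five points. -/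
noncomputable def cc (l : k) : P2 k := (C l * X 0 + 1) * X 1 - (X 0 + C l)

theorem aeval_biv' {R : Type*} [CommRing R] [Algebra k R] (π : Polynomial k →ₐ[k] R) (y : R)
    (f : P2 k) : aeval ![π Polynomial.X, y] f = ((biv f).map π.toRingHom).eval y := by
  induction f using MvPolynomial.induction_on with
  | C a => simpa using (π.commutes a).symm
  | add p q hp hq => simp only [map_add, Polynomial.map_add, Polynomial.eval_add, hp, hq]
  | mul_X p i hp =>
    simp only [map_mul, Polynomial.map_mul, Polynomial.eval_mul, hp]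
    congr 1
    fin_cases i <;> simp

theorem biv_cc (l : k) :
    biv (cc l) = Polynomial.C (Polynomial.C l * Polynomial.X + 1) * Polynomial.X -
      Polynomial.C (Polynomial.X + Polynomial.C l) := by
  simp [cc]

theorem cc_dvd (Q : Conf k) {f : P2 k} (h : uev Q.l f = 0) : cc Q.l ∣ f := by
  have hβ : rat k (Polynomial.C Q.l * Polynomial.X + 1) ≠ 0 := rat_ne_zero 0 (by simp)
  have h1 := biv_cc Q.l
  have hp : (biv (cc Q.l)).IsPrimitive := by
    intro r hr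
    rw [Polynomial.C_dvd_iff_dvd_coeff, h1] at hr
    have a0 := hr 0
    have a1 := hr 1
    simp only [Polynomial.coeff_sub, Polynomial.coeff_C_mul, Polynomial.coeff_X_zero, mul_zero,
      Polynomial.coeff_C_zero, zero_sub, dvd_neg, Polynomial.coeff_X_one, mul_one,
      Polynomial.coeff_C_succ, sub_zero] at a0 a1
    have a2 := dvd_sub a1 (a0.mul_left (Polynomial.C Q.l))
    have a3 : Polynomial.C Q.l * Polynomial.X + 1 - Polynomial.C Q.l *
        (Polynomial.X + Polynomial.C Q.l) = Polynomial.C ((1 + Q.l) * (1 - Q.l)) := by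
      simp only [map_mul, map_add, map_sub, map_one]
      ring
    rw [a3] at a2
    exact isUnit_of_dvd_unit a2 (Polynomial.isUnit_C.2 (mul_ne_zero Q.l1 Q.l2).isUnit)
  rw [← map_dvd_iff (biv (k := k)).toMulEquiv]
  refine hp.dvd_of_fraction_map_dvd_fraction_map (K := RatFunc k) ?_
  rw [uev, aeval_biv'] at h
  have h2 := Polynomial.dvd_iff_isRoot.2 h
  have h3 : (biv (cc Q.l)).map (algebraMap (Polynomial k) (RatFunc k)) =
      Polynomial.C (rat k (Polynomial.C Q.l * Polynomial.X + 1)) *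
        (Polynomial.X - Polynomial.C (yr Q.l)) := by
    rw [mul_sub, ← map_mul, yr, mul_div_cancel₀ _ hβ, h1, Polynomial.map_sub, Polynomial.map_mul,
      Polynomial.map_C, Polynomial.map_C, Polynomial.map_X]
    rfl
  exact h3 ▸ (Polynomial.isUnit_C.2 hβ.isUnit).mul_left_dvd.2 h2

theorem Tor_ge {a b m1 m2 m3 m4 : ℝ} {ν : Fin 5 → ℝ} (h : UCls a b m1 m2 m3 m4 ν) {f : P2 k}
    {u1 u2 u3 u4 u5 u6 u7 u8 : ℤ} (w1 : wmin 1 0 f ≤ u1) (w2 : wmin (-1) 0 f ≤ u2)
    (w3 : wmin 0 1 f ≤ u3) (w4 : wmin 0 (-1) f ≤ u4) (w5 : wmin 1 1 f ≤ u5)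
    (w6 : wmin 1 (-1) f ≤ u6) (w7 : wmin (-1) 1 f ≤ u7) (w8 : wmin (-1) (-1) f ≤ u8) :
    -((b - m1 - m2) * u1 + (b - m3 - m4) * u2 + (a - m1 - m3) * u3 + (a - m2 - m4) * u4 +
      m1 * u5 + m2 * u6 + m3 * u7 + m4 * u8) ≤ Tor a b m1 m2 m3 m4 f := by
  obtain ⟨p1, p2, p3, p4, -⟩ := h.cls.nonneg
  have d1 := mul_le_mul_of_nonneg_left ((Int.cast_le (R := ℝ)).2 w1) p1
  have d2 := mul_le_mul_of_nonneg_left ((Int.cast_le (R := ℝ)).2 w2) p4
  have d3 := mul_le_mul_of_nonneg_left ((Int.cast_le (R := ℝ)).2 w3) p2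
  have d4 := mul_le_mul_of_nonneg_left ((Int.cast_le (R := ℝ)).2 w4) p3
  have d5 := mul_le_mul_of_nonneg_left ((Int.cast_le (R := ℝ)).2 w5) h.h1
  have d6 := mul_le_mul_of_nonneg_left ((Int.cast_le (R := ℝ)).2 w6) h.h2
  have d7 := mul_le_mul_of_nonneg_left ((Int.cast_le (R := ℝ)).2 w7) h.h3
  have d8 := mul_le_mul_of_nonneg_left ((Int.cast_le (R := ℝ)).2 w8) h.h4
  unfold Tor
  linarith

theorem Tor_le {a b m1 m2 m3 m4 : ℝ} {ν : Fin 5 → ℝ} (h : UCls a b m1 m2 m3 m4 ν) {f : P2 k}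
    {u1 u2 u3 u4 u5 u6 u7 u8 : ℤ} (w1 : u1 ≤ wmin 1 0 f) (w2 : u2 ≤ wmin (-1) 0 f)
    (w3 : u3 ≤ wmin 0 1 f) (w4 : u4 ≤ wmin 0 (-1) f) (w5 : u5 ≤ wmin 1 1 f)
    (w6 : u6 ≤ wmin 1 (-1) f) (w7 : u7 ≤ wmin (-1) 1 f) (w8 : u8 ≤ wmin (-1) (-1) f) :
    Tor a b m1 m2 m3 m4 f ≤
    -((b - m1 - m2) * u1 + (b - m3 - m4) * u2 + (a - m1 - m3) * u3 + (a - m2 - m4) * u4 +
      m1 * u5 + m2 * u6 + m3 * u7 + m4 * u8) := by
  obtain ⟨p1, p2, p3, p4, -⟩ := h.cls.nonneg
  have d1 := mul_le_mul_of_nonneg_left ((Int.cast_le (R := ℝ)).2 w1) p1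
  have d2 := mul_le_mul_of_nonneg_left ((Int.cast_le (R := ℝ)).2 w2) p4
  have d3 := mul_le_mul_of_nonneg_left ((Int.cast_le (R := ℝ)).2 w3) p2
  have d4 := mul_le_mul_of_nonneg_left ((Int.cast_le (R := ℝ)).2 w4) p3
  have d5 := mul_le_mul_of_nonneg_left ((Int.cast_le (R := ℝ)).2 w5) h.h1
  have d6 := mul_le_mul_of_nonneg_left ((Int.cast_le (R := ℝ)).2 w6) h.h2
  have d7 := mul_le_mul_of_nonneg_left ((Int.cast_le (R := ℝ)).2 w7) h.h3
  have d8 := mul_le_mul_of_nonneg_left ((Int.cast_le (R := ℝ)).2 w8) h.h4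
  unfold Tor
  linarith

theorem wmin_le_ex {p q : ℤ} {f : P2 k} (i l : ℕ) (h : ((biv f).coeff l).coeff i ≠ 0) :
    wmin p q f ≤ p * i + q * l := by
  rw [coeff_biv] at h
  simpa [wt] using wmin_le (p := p) (q := q) h

theorem cc_ne_zero (l : k) : cc l ≠ 0 := fun h => by
  have h1 := congrArg (aeval ![(0 : k), 1 + l]) h
  simp [cc] at h1

theorem Phi_cc (Q : Conf k) {a b m1 m2 m3 m4 : ℝ} {ν : Fin 5 → ℝ}
    (h : UCls a b m1 m2 m3 m4 ν) : 0 ≤ Phi Q a b m1 m2 m3 m4 ν (cc Q.l) := by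
  have e00 : ((biv (cc Q.l)).coeff 0).coeff 0 ≠ 0 := by simpa [cc] using Q.l0
  have e10 : ((biv (cc Q.l)).coeff 0).coeff 1 ≠ 0 := by simp [cc]
  have e01 : ((biv (cc Q.l)).coeff 1).coeff 0 ≠ 0 := by
    rw [biv_cc, Polynomial.coeff_sub, Polynomial.coeff_C_mul, Polynomial.coeff_C_succ]
    simp
  have e11 : ((biv (cc Q.l)).coeff 1).coeff 1 ≠ 0 := by
    rw [biv_cc, Polynomial.coeff_sub, Polynomial.coeff_C_mul, Polynomial.coeff_C_succ]
    simpa [Polynomial.coeff_one] using Q.l0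
  have h1 := Tor_ge h (wmin_le_ex _ _ e00) (wmin_le_ex _ _ e10) (wmin_le_ex _ _ e00)
    (wmin_le_ex _ _ e01) (wmin_le_ex _ _ e00) (wmin_le_ex _ _ e01) (wmin_le_ex _ _ e10)
    (wmin_le_ex _ _ e11)
  have h2 : ∑ i, ν i * (ord (Q.x i) (Q.y i) (cc Q.l) + ord (-Q.x i) (-Q.y i) (cc Q.l)) ≤
      ∑ i, ν i := by
    refine Finset.sum_le_sum fun i _ => mul_le_of_le_one_right (h.cls.nonneg.2.2.2.2 i) ?_
    have a1 : ord (Q.x i) (Q.y i) (cc Q.l) ≤ 1 := by
      refine (wmin_le_ex 0 1 ?_).trans (by simp)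
      have : biv (shift (Q.x i) (Q.y i) (cc Q.l)) =
          Polynomial.C (Polynomial.C Q.l * Polynomial.X + Polynomial.C (Q.l * Q.x i + 1)) *
            Polynomial.X + Polynomial.C ((Polynomial.C Q.l * (Polynomial.X + Polynomial.C (Q.x i))
              + 1) * Polynomial.C (Q.y i) -
              (Polynomial.X + Polynomial.C (Q.x i) + Polynomial.C Q.l)) := by
        simp [cc, shift]
        ring
      rw [this, Polynomial.coeff_add, Polynomial.coeff_C_mul, Polynomial.coeff_C_succ]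
      simpa using Q.b0 i
    have a2 : ord (-Q.x i) (-Q.y i) (cc Q.l) ≤ 0 := by
      refine ord_le_zero fun h0 => mul_ne_zero Q.two (sub_ne_zero.2 (Q.xy i)) ?_
      simp only [cc, map_sub, map_mul, map_add, aeval_C, aeval_X, map_one, Matrix.cons_val_zero,
        Matrix.cons_val_one, Algebra.algebraMap_self, RingHom.id_apply] at h0
      linear_combination h0 - Q.hy i
    exact_mod_cast (by omega : ord (Q.x i) (Q.y i) (cc Q.l) +
      ord (-Q.x i) (-Q.y i) (cc Q.l) ≤ 1)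
  rw [h.orth] at h2
  unfold Phi
  push_cast at h1
  linarith

theorem cc_not_unit (Q : Conf k) : ¬ IsUnit (cc Q.l) := fun h => by
  have := (h.map (aeval ![(1 : k), 1])).ne_zero
  simp [cc, add_comm] at this

/-- The invariant classes in the positive cone are nef. -/
theorem up [IsAlgClosed k] (Q : Conf k) {a b m1 m2 m3 m4 : ℝ} {ν : Fin 5 → ℝ}
    (h : UCls a b m1 m2 m3 m4 ν) {f : P2 k} (hf : f ≠ 0) : 0 ≤ Phi Q a b m1 m2 m3 m4 ν f := by
  obtain ⟨n, g, hg, rfl⟩ := WfDvdMonoid.max_power_factor' hf (cc_not_unit Q)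
  have hg0 := right_ne_zero_of_mul hf
  obtain ⟨n', g', hg', e⟩ := WfDvdMonoid.max_power_factor' (inv2_ne_zero hg0) (cc_not_unit Q)
  have hg1 : g' ≠ 0 := right_ne_zero_of_mul (e ▸ inv2_ne_zero hg0)
  have h1 := up_generic Q h (f := g') (fun h0 => hg' (cc_dvd Q h0)) (fun h0 => hg (by
    rw [← inv2_inv2 g, e, map_mul]
    exact (cc_dvd Q h0).mul_left _))
  have h2 := Phi_cc Q h
  have h3 := pow_ne_zero n (cc_ne_zero Q.l)
  rw [Phi_mul _ _ _ _ _ _ _ _ h3 hg0, ← Phi_inv2 _ _ _ _ _ _ _ _ g, e,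
    Phi_mul _ _ _ _ _ _ _ _ (pow_ne_zero n' (cc_ne_zero Q.l)) hg1,
    Phi_pow _ _ _ _ _ _ _ _ (cc_ne_zero Q.l), Phi_pow _ _ _ _ _ _ _ _ (cc_ne_zero Q.l)]
  positivity

end Pool.Agent.MP_d0dfcd_ag.NB

end MrgPart0

-- ======== part 1: formerly Pool.Agent.MP_d0dfcd_ag.h44.Plane
section MrgPart1

/-! From the plane to the product of two lines. -/

namespace Pool.Agent.MP_d0dfcd_ag.NB

open MvPolynomial

variable {k : Type*} [Field k]

/-- The homogenisation of `g` in degree `d`, evaluated at `(z, x, y)`. -/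
noncomputable def hmg {R : Type*} [CommRing R] [Algebra k R] (d : ℕ) (z x y : R) (g : P2 k) : R :=
  ∑ e ∈ g.support, algebraMap k R (coeff e g) * (x ^ e 0 * y ^ e 1 * z ^ (d - (e 0 + e 1)))

theorem map_hmg {R S : Type*} [CommRing R] [Algebra k R] [CommRing S] [Algebra k S]
    (π : R →ₐ[k] S) (d : ℕ) (z x y : R) (g : P2 k) :
    π (hmg d z x y g) = hmg d (π z) (π x) (π y) g := by
  simp only [hmg, map_sum, map_mul, map_pow, AlgHom.commutes]

theorem hmg_field {L : Type*} [Field L] [Algebra k L] {d : ℕ} {z : L} (hz : z ≠ 0) (x y : L)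
    {g : P2 k} (hg : WB (-1) (-1) (-d) g) : hmg d z x y g = z ^ d * aeval ![x / z, y / z] g := by
  rw [hmg, aeval_two, Finset.mul_sum]
  refine Finset.sum_congr rfl fun e he => ?_
  have := hg e he
  unfold wt at this
  obtain ⟨u, rfl⟩ : ∃ u, d = e 0 + e 1 + u := ⟨d - (e 0 + e 1), by omega⟩
  rw [Nat.add_sub_cancel_left, div_pow, div_pow, pow_add, pow_add]
  field_simp

theorem hmg_shift {R : Type*} [CommRing R] [IsDomain R] [Algebra k R] {d : ℕ} {z : R}
    (hz : z ≠ 0) (x y : R) {g : P2 k} (hg : WB (-1) (-1) (-d) g) (a b : k) :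
    hmg d z x y g =
      hmg d z (x - algebraMap k R a * z) (y - algebraMap k R b * z) (shift a b g) := by
  let π := IsScalarTower.toAlgHom k R (FractionRing R)
  have hπ : Function.Injective π := IsFractionRing.injective R (FractionRing R)
  have hz' : π z ≠ 0 := fun h => hz (hπ (by rw [h, map_zero]))
  apply hπ
  rw [map_hmg, map_hmg, hmg_field hz' _ _ hg, hmg_field hz' _ _ (hg.shift a b)]
  congr 1
  have : (aeval ![π (x - algebraMap k R a * z) / π z, π (y - algebraMap k R b * z) / π z]).comp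
      (shift a b) = aeval ![π x / π z, π y / π z] := by
    ext1 i
    fin_cases i
    · simp only [shift, AlgHom.comp_apply, aeval_X, map_add, aeval_C, map_sub, map_mul,
        AlgHom.commutes, Fin.zero_eta, Matrix.cons_val_zero]
      field_simp
      ring
    · simp only [shift, AlgHom.comp_apply, aeval_X, map_add, aeval_C, map_sub, map_mul,
        AlgHom.commutes, Fin.mk_one, Matrix.cons_val_one, Matrix.cons_val_zero]
      field_simp
      ring
  exact (DFunLike.congr_fun this g).symm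

theorem hmg_wb {p q u v : ℤ} (hv : 0 ≤ v) {z x y g : P2 k} (hz : WB p q u z)
    (hx : WB p q (u + v) x) (hy : WB p q (u + v) y) {d n : ℕ} (hd : WB (-1) (-1) (-d) g)
    (hn : WB 1 1 n g) : WB p q (u * d + v * n) (hmg d z x y g) := by
  refine WB.sum _ _ fun e he => ?_
  refine ((((hx.pow _).mul (hy.pow _)).mul (hz.pow _)).C_mul _).mono ?_
  have h1 := hd e he
  have h2 := hn e he
  unfold wt at h1 h2
  rw [Nat.cast_sub (by omega)]
  push_cast
  nlinarith

theorem hmg_mem {R : Type*} [CommRing R] [Algebra k R] {J : Ideal R} (z : R) {x y : R}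
    (hx : x ∈ J) (hy : y ∈ J) (d : ℕ) {n : ℕ} {g : P2 k} (hn : WB 1 1 n g) :
    hmg d z x y g ∈ J ^ n := by
  refine Ideal.sum_mem _ fun e he => Ideal.mul_mem_left _ _ (Ideal.mul_mem_right _ _ ?_)
  have h2 := hn e he
  unfold wt at h2
  refine Ideal.pow_le_pow_right (by omega : n ≤ e 0 + e 1) ?_
  rw [pow_add]
  exact Ideal.mul_mem_mul (Ideal.pow_mem_pow hx _) (Ideal.pow_mem_pow hy _)

theorem hmg_mem' {R : Type*} [CommRing R] [Algebra k R] {J : Ideal R} {z x y : R} (hz : z ∈ J)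
    (hx : x ∈ J) (hy : y ∈ J) {d : ℕ} {g : P2 k} (hd : WB (-1) (-1) (-d) g) :
    hmg d z x y g ∈ J ^ d := by
  refine Ideal.sum_mem _ fun e he => Ideal.mul_mem_left _ _ ?_
  have h2 := hd e he
  unfold wt at h2
  have := Ideal.mul_mem_mul (Ideal.mul_mem_mul (Ideal.pow_mem_pow hx (e 0))
    (Ideal.pow_mem_pow hy (e 1))) (Ideal.pow_mem_pow hz (d - (e 0 + e 1)))
  rwa [← pow_add, ← pow_add, Nat.add_sub_cancel' (by omega)] at this

theorem hmg_pt {R : Type*} [CommRing R] [IsDomain R] [Algebra k R] {J : Ideal R} {z x y : R}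
    (hz : z ≠ 0) {a b : k} (hx : x - algebraMap k R a * z ∈ J) (hy : y - algebraMap k R b * z ∈ J)
    {d n : ℕ} {g : P2 k} (hd : WB (-1) (-1) (-d) g) (hn : g ∈ ptIdeal a b ^ n) :
    hmg d z x y g ∈ J ^ n := by
  rw [hmg_shift hz x y hd a b]
  exact hmg_mem _ hx hy _ ((mem_pow_iff _ _ _ _).1 hn)

/-- A form of bidegree `(1, 1)`. -/
noncomputable def bil (a0 a1 a2 a3 : k) : P2 k :=
  C a0 + C a1 * X 0 + C a2 * X 1 + C a3 * (X 0 * X 1)

theorem bil_sub (a0 a1 a2 a3 b0 b1 b2 b3 s : k) :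
    bil a0 a1 a2 a3 - algebraMap k (P2 k) s * bil b0 b1 b2 b3 =
      bil (a0 - s * b0) (a1 - s * b1) (a2 - s * b2) (a3 - s * b3) := by
  simp only [bil, map_sub, map_mul, algebraMap_eq]
  ring

theorem aeval_bil {R : Type*} [CommRing R] [Algebra k R] (a0 a1 a2 a3 : k) (x y : R) :
    aeval ![x, y] (bil a0 a1 a2 a3) = algebraMap k R a0 + algebraMap k R a1 * x +
      algebraMap k R a2 * y + algebraMap k R a3 * (x * y) := by
  simp [bil]

theorem wb_bil {p q c : ℤ} {a0 a1 a2 a3 : k} (h0 : a0 = 0 ∨ c ≤ 0) (h1 : a1 = 0 ∨ c ≤ p)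
    (h2 : a2 = 0 ∨ c ≤ q) (h3 : a3 = 0 ∨ c ≤ p + q) : WB p q c (bil a0 a1 a2 a3) := by
  have key : ∀ (a : k) (u : ℤ) (f : P2 k), WB p q u f → a = 0 ∨ c ≤ u → WB p q c (C a * f) := by
    rintro a u f hf (rfl | h)
    · rw [C_0, zero_mul]
      exact WB.zero _ _ _
    · exact (hf.C_mul a).mono h
  refine (((?_ : WB p q c (C a0)).add (key _ _ _ (WB.X0 p q) h1)).add
    (key _ _ _ (WB.X1 p q) h2)).add (key _ _ _ ((WB.X0 p q).mul (WB.X1 p q)) h3)
  simpa using key _ _ _ (WB.one p q) h0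

/-- The denominator of the map to the plane. -/
noncomputable def den (x y θ : k) : P2 k := bil (θ * x * y - x - y) (1 - θ * y) (1 - θ * x) θ

/-- The value of the denominator. -/
def dv (x y θ p q : k) : k := (p - x) + (q - y) + θ * ((p - x) * (q - y))

/-- The pull-back of a plane curve. -/
noncomputable def pull (x y θ : k) (d : ℕ) (g : P2 k) : P2 k :=
  hmg d (den x y θ) (bil (-x) 1 0 0) (bil (-y) 0 1 0) g

theorem exists_rho {L : Type*} [Field L] [Algebra k L] (x y : k) {θ : k} (hθ : θ ≠ 0) {u v : L}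
    (h0 : u ≠ 0) (h1 : v ≠ 0) (h2 : 1 - u - v ≠ 0) : ∃ ρ : P2 k →ₐ[k] L, ρ (den x y θ) ≠ 0 ∧
      ρ (bil (-x) 1 0 0) / ρ (den x y θ) = u ∧ ρ (bil (-y) 0 1 0) / ρ (den x y θ) = v := by
  have h3 : algebraMap k L θ ≠ 0 := by simpa using hθ
  let ρ : P2 k →ₐ[k] L := aeval ![algebraMap k L x + (1 - u - v) / (algebraMap k L θ * v),
    algebraMap k L y + (1 - u - v) / (algebraMap k L θ * u)]
  have e0 : ρ (den x y θ) = (1 - u - v) / (algebraMap k L θ * u * v) := by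
    simp only [ρ, den, aeval_bil, map_sub, map_mul, map_one]
    field_simp
    ring
  refine ⟨ρ, ?_, ?_, ?_⟩
  · rw [e0]
    exact div_ne_zero h2 (mul_ne_zero (mul_ne_zero h3 h0) h1)
  · rw [e0]
    simp only [ρ, aeval_bil, map_neg, map_one, map_zero]
    field_simp
    ring
  · rw [e0]
    simp only [ρ, aeval_bil, map_neg, map_one, map_zero]
    field_simp
    ring

theorem pull_ne_zero (x y : k) {θ : k} (hθ : θ ≠ 0) {d : ℕ} {g : P2 k} (hg : g ≠ 0)
    (hd : WB (-1) (-1) (-d) g) : den x y θ ≠ 0 ∧ pull x y θ d g ≠ 0 := by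
  let π := IsScalarTower.toAlgHom k (P2 k) (FractionRing (P2 k))
  have hπ : ∀ f : P2 k, f ≠ 0 → π f ≠ 0 := fun f hf h =>
    hf (IsFractionRing.injective (P2 k) (FractionRing (P2 k)) (by rw [map_zero]; exact h))
  have h2 : 1 - π (X 0) - π (X 1) ≠ 0 := by
    have := hπ (1 - X 0 - X 1) fun h => by simpa using congrArg (aeval ![(0 : k), 0]) h
    rwa [map_sub, map_sub, map_one] at this
  have h4 : aeval ![π (X 0), π (X 1)] = π := by
    ext1 i
    fin_cases i <;> simp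
  obtain ⟨ρ, e3, e1, e2⟩ := exists_rho x y hθ (hπ _ (X_ne_zero 0)) (hπ _ (X_ne_zero 1)) h2
  refine ⟨fun h => e3 (by rw [h, map_zero]), fun h => ?_⟩
  have := congrArg ρ h
  rw [pull, map_hmg, hmg_field e3 _ _ hd, e1, e2, h4, map_zero] at this
  exact mul_ne_zero (pow_ne_zero _ e3) (hπ g hg) this

theorem pull_pt (x y : k) {θ : k} (hz : den x y θ ≠ 0) {p q : k} (h : dv x y θ p q ≠ 0) {d n : ℕ}
    {g : P2 k} (hd : WB (-1) (-1) (-d) g)
    (hn : g ∈ ptIdeal ((p - x) / dv x y θ p q) ((q - y) / dv x y θ p q) ^ n) :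
    pull x y θ d g ∈ ptIdeal p q ^ n := by
  refine hmg_pt hz (mem_of_aeval ?_) (mem_of_aeval ?_) hd hn
  · rw [den, bil_sub, aeval_bil]
    simp only [Algebra.algebraMap_self, RingHom.id_apply]
    field_simp
    unfold dv
    ring
  · rw [den, bil_sub, aeval_bil]
    simp only [Algebra.algebraMap_self, RingHom.id_apply]
    field_simp
    unfold dv
    ring

theorem pull_wb (x y : k) {θ : k} (hz : den x y θ ≠ 0) {p q u : ℤ} (a b : k) {d n : ℕ}
    {g : P2 k} (hd : WB (-1) (-1) (-d) g) (hn : g ∈ ptIdeal a b ^ n) (h0 : WB p q u (den x y θ))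
    (h1 : WB p q (u + 1) (bil (-x) 1 0 0 - algebraMap k (P2 k) a * den x y θ))
    (h2 : WB p q (u + 1) (bil (-y) 0 1 0 - algebraMap k (P2 k) b * den x y θ)) :
    WB p q (u * d + n) (pull x y θ d g) := by
  have := hmg_wb zero_le_one h0 h1 h2 (hd.shift a b) ((mem_pow_iff _ _ _ _).1 hn)
  rwa [← hmg_shift hz _ _ hd, one_mul] at this

theorem pull_wb0 (x y θ : k) {p q u : ℤ} (h0 : u ≤ 0) (h1 : u ≤ p) (h2 : u ≤ q)
    (h3 : u ≤ p + q) {d : ℕ} {g : P2 k} (hd : WB (-1) (-1) (-d) g) :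
    WB p q (u * d) (pull x y θ d g) := by
  have := hmg_wb (v := 0) (n := 0) le_rfl (z := den x y θ) (x := bil (-x) 1 0 0)
    (y := bil (-y) 0 1 0) (wb_bil (.inr h0) (.inr h1) (.inr h2) (.inr h3))
    (by rw [add_zero]; exact wb_bil (.inr h0) (.inr h1) (.inr h2) (.inr h3))
    (by rw [add_zero]; exact wb_bil (.inr h0) (.inr h1) (.inr h2) (.inr h3)) hd
    (fun e _ => by unfold wt; omega)
  simpa [pull] using this

theorem prime_lin (i : Fin 2) (x y : k) : Prime (X i - C (![x, y] i) : P2 k) := by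
  let E : P2 k ≃ₐ[k] P2 k := AlgEquiv.ofAlgHom (shift (-x) (-y)) (shift x y)
    (by ext1 j; simp [shift_shift, shift_zero]) (by ext1 j; simp [shift_shift, shift_zero])
  have := (MulEquiv.prime_iff E.toMulEquiv).2 (X_prime (i := i))
  convert this using 1
  fin_cases i <;> simp [E, shift, sub_eq_add_neg]

theorem pull_dvd (x y : k) {θ : k} (hz : den x y θ ≠ 0) {d n1 n2 : ℕ} {g : P2 k}
    (hd : WB (-1) (-1) (-d) g) (h1 : g ∈ ptIdeal 0 1 ^ n1) (h2 : g ∈ ptIdeal 1 0 ^ n2) :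
    (X 0 - C x) ^ n1 * (X 1 - C y) ^ n2 ∣ pull x y θ d g := by
  have a1 : pull x y θ d g ∈ Ideal.span {X 0 - C x} ^ n1 := by
    refine hmg_pt hz (Ideal.mem_span_singleton.2 ⟨1, ?_⟩)
      (Ideal.mem_span_singleton.2 ⟨-1 - C θ * (X 1 - C y), ?_⟩) hd h1 <;>
    · simp only [den, bil, map_sub, map_mul, map_neg, map_one, map_zero]
      ring
  have a2 : pull x y θ d g ∈ Ideal.span {X 1 - C y} ^ n2 := by
    refine hmg_pt hz (Ideal.mem_span_singleton.2 ⟨-1 - C θ * (X 0 - C x), ?_⟩)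
      (Ideal.mem_span_singleton.2 ⟨1, ?_⟩) hd h2 <;>
    · simp only [den, bil, map_sub, map_mul, map_neg, map_one, map_zero]
      ring
  rw [Ideal.span_singleton_pow, Ideal.mem_span_singleton] at a1 a2
  obtain ⟨w, hw⟩ := a1
  rw [hw] at a2 ⊢
  refine mul_dvd_mul_left _ ((prime_lin 1 x y).pow_dvd_of_dvd_mul_left _ (fun h => ?_) a2)
  have := map_dvd (aeval ![x + 1, y]) ((prime_lin 1 x y).dvd_of_dvd_pow h)
  simp at this

end Pool.Agent.MP_d0dfcd_ag.NB

end MrgPart1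

-- ======== part 2: formerly Pool.Agent.MP_d0dfcd_ag.h44.Special
section MrgPart2

/-! Fifteen special points of the plane with a round piece of nef cone. -/

namespace Pool.Agent.MP_d0dfcd_ag.NB

open MvPolynomial

variable {k : Type*} [Field k]

theorem exists_avoid [Infinite k] {ι : Type*} [Fintype ι] (α β : ι → k) (hβ : ∀ i, β i ≠ 0) :
    ∃ θ, ∀ i, α i + θ * β i ≠ 0 := by
  classical
  obtain ⟨θ, hθ⟩ := Infinite.exists_notMem_finset (Finset.univ.image fun i => -α i / β i)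
  refine ⟨θ, fun i h => hθ (Finset.mem_image.2 ⟨i, Finset.mem_univ _, ?_⟩)⟩
  rw [div_eq_iff (hβ i)]
  linear_combination -h

theorem sum_ord_le (Q : Conf k) {ν : Fin 5 → ℝ} (hν : ∀ i, 0 ≤ ν i) {f : P2 k}
    (h1 : ord (Q.x 4) (Q.y 4) f ≤ 1) (h2 : ∀ i, i ≠ 4 → aeval ![Q.x i, Q.y i] f ≠ 0)
    (h3 : ∀ i, aeval ![-Q.x i, -Q.y i] f ≠ 0) :
    ∑ i, ν i * (ord (Q.x i) (Q.y i) f + ord (-Q.x i) (-Q.y i) f) ≤ ν 4 := by
  have : ∑ i, ν i * (ord (Q.x i) (Q.y i) f + ord (-Q.x i) (-Q.y i) f) ≤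
      ∑ i, ν i * if i = 4 then 1 else 0 := by
    refine Finset.sum_le_sum fun i _ => mul_le_mul_of_nonneg_left ?_ (hν i)
    have a := ord_le_zero (h3 i)
    split_ifs with h
    · subst h
      exact_mod_cast (by omega : ord (Q.x 4) (Q.y 4) f + ord (-Q.x 4) (-Q.y 4) f ≤ 1)
    · have := ord_le_zero (h2 i h)
      exact_mod_cast (by omega : ord (Q.x i) (Q.y i) f + ord (-Q.x i) (-Q.y i) f ≤ 0)
  simpa using this

theorem Phi_e1 (Q : Conf k) {a b m1 m2 m3 m4 : ℝ} {ν : Fin 5 → ℝ}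
    (h : UCls a b m1 m2 m3 m4 ν) : b - ν 4 ≤ Phi Q a b m1 m2 m3 m4 ν (X 0 - C (Q.x 4)) := by
  have e0 : ((biv (X 0 - C (Q.x 4) : P2 k)).coeff 0).coeff 0 ≠ 0 := by simpa using Q.x0 4
  have e1 : ((biv (X 0 - C (Q.x 4) : P2 k)).coeff 0).coeff 1 ≠ 0 := by simp
  have h1 := Tor_ge h (wmin_le_ex _ _ e0) (wmin_le_ex _ _ e1) (wmin_le_ex _ _ e0)
    (wmin_le_ex _ _ e0) (wmin_le_ex _ _ e0) (wmin_le_ex _ _ e0) (wmin_le_ex _ _ e1)
    (wmin_le_ex _ _ e1)
  have h2 := sum_ord_le Q h.cls.nonneg.2.2.2.2 (f := X 0 - C (Q.x 4))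
    ((wmin_le_ex 1 0 (by simp [shift])).trans (by simp))
    (fun i hi => by simpa [sub_eq_zero] using fun h => hi (Q.xinj h))
    (fun i h0 => Q.nx i 4 (by simp at h0; linear_combination -h0))
  unfold Phi
  push_cast at h1
  linarith

theorem Phi_e2 (Q : Conf k) {a b m1 m2 m3 m4 : ℝ} {ν : Fin 5 → ℝ}
    (h : UCls a b m1 m2 m3 m4 ν) : a - ν 4 ≤ Phi Q a b m1 m2 m3 m4 ν (X 1 - C (Q.y 4)) := by
  have e0 : ((biv (X 1 - C (Q.y 4) : P2 k)).coeff 0).coeff 0 ≠ 0 := by simpa using Q.y0 4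
  have e1 : ((biv (X 1 - C (Q.y 4) : P2 k)).coeff 1).coeff 0 ≠ 0 := by simp
  have h1 := Tor_ge h (wmin_le_ex _ _ e0) (wmin_le_ex _ _ e0) (wmin_le_ex _ _ e0)
    (wmin_le_ex _ _ e1) (wmin_le_ex _ _ e0) (wmin_le_ex _ _ e1) (wmin_le_ex _ _ e0)
    (wmin_le_ex _ _ e1)
  have h2 := sum_ord_le Q h.cls.nonneg.2.2.2.2 (f := X 1 - C (Q.y 4))
    ((wmin_le_ex 0 1 (by simp [shift])).trans (by simp))
    (fun i hi => by simpa [sub_eq_zero] using fun h => hi (Q.yinj h))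
    (fun i h0 => Q.ny i 4 (by simp at h0; linear_combination -h0))
  unfold Phi
  push_cast at h1
  linarith

/-- The weights allowed at the fifteen points. -/
structure Wts (δ : ℝ) (w : Fin 11 → ℝ) (m : Fin 4 → ℝ) : Prop where
  pos : 0 ≤ δ
  s1 : w 0 + w 1 + w 2 = δ
  s2 : w 3 + w 4 + w 5 + w 6 = δ
  p1 : w 7 = w 3
  p2 : w 8 = w 4
  p3 : w 9 = w 5
  p4 : w 10 = w 6
  sq : ∑ j, w j ^ 2 + ∑ j, m j ^ 2 ≤ δ ^ 2
  nonneg : ∀ j, 0 ≤ m j

theorem Wts.ucls {δ : ℝ} {w : Fin 11 → ℝ} {m : Fin 4 → ℝ} (h : Wts δ w m) :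
    UCls (w 1 + w 2) (w 0 + w 2) (m 0) (m 1) (m 2) (m 3) ![w 3, w 4, w 5, w 6, w 2] := by
  have h0 := h.sq
  have h1 := h.s1
  have h2 := h.s2
  simp only [Fin.sum_univ_succ, Fin.sum_univ_zero, Fin.succ_zero_eq_one, Fin.succ_one_eq_two,
    Fin.reduceSucc, h.p1, h.p2, h.p3, h.p4] at h0
  refine ⟨?_, ?_, ?_, h.nonneg 0, h.nonneg 1, h.nonneg 2, h.nonneg 3⟩
  · have := (abs_le_of_sq_le_sq' (a := w 2) (b := δ) (by
      nlinarith [sq_nonneg (w 0), sq_nonneg (w 1), sq_nonneg (w 3), sq_nonneg (w 4),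
        sq_nonneg (w 5), sq_nonneg (w 6), sq_nonneg (m 0), sq_nonneg (m 1), sq_nonneg (m 2),
        sq_nonneg (m 3)]) h.pos).1
    linarith
  · simp only [Fin.sum_univ_five, Matrix.cons_val]
    rw [← h1] at h0
    linarith
  · simp only [Fin.sum_univ_five, Matrix.cons_val]
    linarith

theorem special [IsAlgClosed k] (Q : Conf k) : ∃ A B : Fin 11 ⊕ Fin 4 → k,
    ∀ (δ : ℝ) (w : Fin 11 → ℝ) (m : Fin 4 → ℝ), Wts δ w m →
      ∀ (d : ℕ) (n : Fin 11 ⊕ Fin 4 → ℕ) (g : P2 k), g ≠ 0 → g.totalDegree ≤ d →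
        (∀ j, g ∈ ptIdeal (A j) (B j) ^ n j) → ∑ j, Sum.elim w m j * n j ≤ δ * d := by
  obtain ⟨θ, hθ⟩ := exists_avoid (ι := Fin 3 ⊕ Fin 4 ⊕ Option (Fin 5))
    (Sum.elim ![0, 1, 1] (Sum.elim (fun i => (Q.x i.castSucc - Q.x 4) + (Q.y i.castSucc - Q.y 4))
      fun i => i.elim ((0 - Q.x 4) + (0 - Q.y 4)) fun i => (-Q.x i - Q.x 4) + (-Q.y i - Q.y 4)))
    (Sum.elim ![1, -Q.x 4, -Q.y 4]
      (Sum.elim (fun i => (Q.x i.castSucc - Q.x 4) * (Q.y i.castSucc - Q.y 4))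
      fun i => i.elim ((0 - Q.x 4) * (0 - Q.y 4)) fun i => (-Q.x i - Q.x 4) * (-Q.y i - Q.y 4)))
    (by
      rintro (i | i | _ | i)
      · fin_cases i
        · simp
        · simpa using Q.x0 4
        · simpa using Q.y0 4
      · have : i.castSucc ≠ 4 := (Fin.castSucc_lt_last i).ne
        exact mul_ne_zero (sub_ne_zero.2 fun h => this (Q.xinj h))
          (sub_ne_zero.2 fun h => this (Q.yinj h))
      · simpa using Q.s0 4
      · exact mul_ne_zero (fun h => Q.nx i 4 (by linear_combination -h))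
          (fun h => Q.ny i 4 (by linear_combination -h)))
  have t0 : θ ≠ 0 := by simpa using hθ (.inl 0)
  have t1 : 1 - θ * Q.x 4 ≠ 0 := by simpa [sub_eq_add_neg] using hθ (.inl 1)
  have t2 : 1 - θ * Q.y 4 ≠ 0 := by simpa [sub_eq_add_neg] using hθ (.inl 2)
  have t3 : ∀ i : Fin 4, dv (Q.x 4) (Q.y 4) θ (Q.x i.castSucc) (Q.y i.castSucc) ≠ 0 :=
    fun i => hθ (.inr (.inl i))
  have t4 : dv (Q.x 4) (Q.y 4) θ 0 0 ≠ 0 := hθ (.inr (.inr none))
  have t5 : ∀ i, dv (Q.x 4) (Q.y 4) θ (-Q.x i) (-Q.y i) ≠ 0 := fun i => hθ (.inr (.inr (some i)))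
  let pa : k → k → k := fun p q => (p - Q.x 4) / dv (Q.x 4) (Q.y 4) θ p q
  let pb : k → k → k := fun p q => (q - Q.y 4) / dv (Q.x 4) (Q.y 4) θ p q
  refine ⟨Sum.elim ![0, 1, pa (-Q.x 4) (-Q.y 4), pa (Q.x 0) (Q.y 0), pa (Q.x 1) (Q.y 1),
      pa (Q.x 2) (Q.y 2), pa (Q.x 3) (Q.y 3), pa (-Q.x 0) (-Q.y 0), pa (-Q.x 1) (-Q.y 1),
      pa (-Q.x 2) (-Q.y 2), pa (-Q.x 3) (-Q.y 3)] ![pa 0 0, 0, 1 / (1 - θ * Q.y 4), 0],
    Sum.elim ![1, 0, pb (-Q.x 4) (-Q.y 4), pb (Q.x 0) (Q.y 0), pb (Q.x 1) (Q.y 1),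
      pb (Q.x 2) (Q.y 2), pb (Q.x 3) (Q.y 3), pb (-Q.x 0) (-Q.y 0), pb (-Q.x 1) (-Q.y 1),
      pb (-Q.x 2) (-Q.y 2), pb (-Q.x 3) (-Q.y 3)] ![pb 0 0, 1 / (1 - θ * Q.x 4), 0, 0],
    fun δ w m hw d n g hg hd hn => ?_⟩
  have h := hw.ucls
  have hν := h.cls.nonneg.2.2.2.2
  rw [← wb_totalDegree] at hd
  obtain ⟨hz, hf⟩ := pull_ne_zero (Q.x 4) (Q.y 4) t0 hg hd
  obtain ⟨f', hf'⟩ := pull_dvd (Q.x 4) (Q.y 4) hz hd (hn (.inl 0)) (hn (.inl 1))
  have n1 := (prime_lin 0 (Q.x 4) (Q.y 4)).ne_zero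
  have n2 := (prime_lin 1 (Q.x 4) (Q.y 4)).ne_zero
  simp only [Matrix.cons_val_zero, Matrix.cons_val_one] at n1 n2
  have n3 : f' ≠ 0 := right_ne_zero_of_mul (hf' ▸ hf)
  have k0 := congrArg (Phi Q (w 1 + w 2) (w 0 + w 2) (m 0) (m 1) (m 2) (m 3)
    ![w 3, w 4, w 5, w 6, w 2]) hf'
  rw [Phi_mul _ _ _ _ _ _ _ _ (mul_ne_zero (pow_ne_zero _ n1) (pow_ne_zero _ n2)) n3,
    Phi_mul _ _ _ _ _ _ _ _ (pow_ne_zero _ n1) (pow_ne_zero _ n2), Phi_pow _ _ _ _ _ _ _ _ n1,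
    Phi_pow _ _ _ _ _ _ _ _ n2] at k0
  have k1 := mul_le_mul_of_nonneg_left (Phi_e1 Q h) (Nat.cast_nonneg (n (.inl 0)))
  have k2 := mul_le_mul_of_nonneg_left (Phi_e2 Q h) (Nat.cast_nonneg (n (.inl 1)))
  have k3 := up Q h n3
  have c1 : WB 1 1 (n (.inr 0)) (pull (Q.x 4) (Q.y 4) θ d g) := by
    have := (mem_pow_iff _ _ _ _).1 (pull_pt _ _ hz t4 hd (hn (.inr 0)))
    rwa [shift_zero] at this
  have c2 := pull_wb (Q.x 4) (Q.y 4) hz (p := 1) (q := -1) (u := -1) 0 (1 / (1 - θ * Q.x 4)) hd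
    (hn (.inr 1)) (wb_bil (by simp) (by simp) (by simp) (by simp))
    (by rw [den, bil_sub]; exact wb_bil (by simp) (by simp) (by simp) (by simp))
    (by rw [den, bil_sub]; exact wb_bil (by simp) (by simp) (by simp [t1]) (by simp))
  have c3 := pull_wb (Q.x 4) (Q.y 4) hz (p := -1) (q := 1) (u := -1) (1 / (1 - θ * Q.y 4)) 0 hd
    (hn (.inr 2)) (wb_bil (by simp) (by simp) (by simp) (by simp))
    (by rw [den, bil_sub]; exact wb_bil (by simp) (by simp [t2]) (by simp) (by simp))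
    (by rw [den, bil_sub]; exact wb_bil (by simp) (by simp) (by simp) (by simp))
  have c4 := pull_wb (Q.x 4) (Q.y 4) hz (p := -1) (q := -1) (u := -2) 0 0 hd
    (hn (.inr 3)) (wb_bil (by simp) (by simp) (by simp) (by simp))
    (by rw [den, bil_sub]; exact wb_bil (by simp) (by simp) (by simp) (by simp))
    (by rw [den, bil_sub]; exact wb_bil (by simp) (by simp) (by simp) (by simp))
  have k4 := Tor_le h
    ((pull_wb0 _ _ θ (u := 0) (by simp) (by simp) (by simp) (by simp) hd).le_wmin hf)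
    ((pull_wb0 _ _ θ (u := -1) (by simp) (by simp) (by simp) (by simp) hd).le_wmin hf)
    ((pull_wb0 _ _ θ (u := 0) (by simp) (by simp) (by simp) (by simp) hd).le_wmin hf)
    ((pull_wb0 _ _ θ (u := -1) (by simp) (by simp) (by simp) (by simp) hd).le_wmin hf)
    (c1.le_wmin hf) (c2.le_wmin hf) (c3.le_wmin hf) (c4.le_wmin hf)
  have key : ∀ (i : Fin 5) (u v : ℕ), pull (Q.x 4) (Q.y 4) θ d g ∈ ptIdeal (Q.x i) (Q.y i) ^ u →
      pull (Q.x 4) (Q.y 4) θ d g ∈ ptIdeal (-Q.x i) (-Q.y i) ^ v →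
      ![w 3, w 4, w 5, w 6, w 2] i * (u + v) ≤ ![w 3, w 4, w 5, w 6, w 2] i *
        (ord (Q.x i) (Q.y i) (pull (Q.x 4) (Q.y 4) θ d g) +
          ord (-Q.x i) (-Q.y i) (pull (Q.x 4) (Q.y 4) θ d g)) := fun i u v hu hv => by
    refine mul_le_mul_of_nonneg_left ?_ (hν i)
    exact_mod_cast add_le_add (le_ord hf hu) (le_ord hf hv)
  have o0 := key 0 _ _ (pull_pt _ _ hz (t3 0) hd (hn (.inl 3))) (pull_pt _ _ hz (t5 0) hd (hn (.inl 7)))
  have o1 := key 1 _ _ (pull_pt _ _ hz (t3 1) hd (hn (.inl 4))) (pull_pt _ _ hz (t5 1) hd (hn (.inl 8)))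
  have o2 := key 2 _ _ (pull_pt _ _ hz (t3 2) hd (hn (.inl 5))) (pull_pt _ _ hz (t5 2) hd (hn (.inl 9)))
  have o3 := key 3 _ _ (pull_pt _ _ hz (t3 3) hd (hn (.inl 6)))
    (pull_pt _ _ hz (t5 3) hd (hn (.inl 10)))
  have o4 := key 4 d _ (hmg_mem' (mem_of_aeval (by rw [den, aeval_bil]; simp; ring))
    (mem_of_aeval (by simp [aeval_bil])) (mem_of_aeval (by simp [aeval_bil])) hd)
    (pull_pt _ _ hz (t5 4) hd (hn (.inl 2)))
  rw [Phi, Fin.sum_univ_five] at k0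
  simp only [Matrix.cons_val] at k0 k1 k2 o0 o1 o2 o3 o4
  simp only [Fintype.sum_sum_type, Sum.elim_inl, Sum.elim_inr, Fin.sum_univ_succ,
    Fin.sum_univ_zero, Fin.succ_zero_eq_one, Fin.succ_one_eq_two, Fin.reduceSucc, hw.p1, hw.p2,
    hw.p3, hw.p4]
  push_cast at k4
  rw [← hw.s1]
  linarith

end Pool.Agent.MP_d0dfcd_ag.NB

end MrgPart2

-- ======== part 3: formerly Pool.Agent.MP_d0dfcd_ag.h44.Collide
section MrgPart3

/-! Colliding a square number of generic points, and existence of the configuration. -/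

namespace Pool.Agent.MP_d0dfcd_ag.NB

open Polynomial

theorem exists_conf {K k : Type*} [Field K] [Infinite K] [Field k] (ι : K[X] →+* k)
    (hι : Function.Injective ι) (h2 : (2 : K) ≠ 0) : Nonempty (Conf k) := by
  classical
  obtain ⟨l, hl⟩ := Infinite.exists_notMem_finset ({0, 1, -1} : Finset K)
  simp only [Finset.mem_insert, Finset.mem_singleton, not_or] at hl
  have l1 : 1 + l ≠ 0 := fun h => hl.2.2 (by linear_combination h)
  have l2 : 1 - l ≠ 0 := fun h => hl.2.1 (by linear_combination -h)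
  let e := Set.Infinite.natEmbedding _ (Set.finite_singleton (0 : K)).infinite_compl
  let ξ : Fin 5 → K[X] := fun i => 1 + C (e i).1 * X
  have hξ : ∀ i, (ξ i).eval 0 = 1 := fun i => by simp [ξ]
  have ne0 : ∀ p : K[X], p.eval 0 ≠ 0 → ι p ≠ 0 := fun p hp h => by
    rw [hι (h.trans (map_zero ι).symm)] at hp
    simp at hp
  have b0 : ∀ i, ι (C l) * ι (ξ i) + 1 ≠ 0 := fun i => by
    simpa using ne0 (C l * ξ i + 1) (by simpa [hξ, add_comm] using l1)
  have a0 : ∀ i, ι (ξ i) + ι (C l) ≠ 0 := fun i => by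
    simpa using ne0 (ξ i + C l) (by simpa [hξ] using l1)
  have L0 : ι (C l) ≠ 0 := ne0 _ (by simpa using hl.1)
  have L1 : 1 + ι (C l) ≠ 0 := by simpa using ne0 (1 + C l) (by simpa using l1)
  have L2 : 1 - ι (C l) ≠ 0 := by simpa using ne0 (1 - C l) (by simpa using l2)
  have xinj : Function.Injective fun i => ι (ξ i) := fun i j h => by
    have h1 := congrArg (eval 1) (hι h)
    simp only [ξ, eval_add, eval_one, eval_mul, eval_C, eval_X, mul_one, add_right_inj] at h1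
    exact Fin.ext (e.injective (Subtype.ext h1))
  refine ⟨⟨ι (C l), fun i => ι (ξ i), fun i => (ι (ξ i) + ι (C l)) / (ι (C l) * ι (ξ i) + 1),
    fun i => div_mul_cancel₀ _ (b0 i), ?_, L0, L1, L2, fun i => ne0 _ (by simp [hξ]),
    fun i => div_ne_zero (a0 i) (b0 i), fun i h => ?_, xinj, fun i j h => ?_, fun i j h => ?_,
    fun i j => ?_, fun i j h => ?_, fun n a b c d ε hε h i => ?_⟩⟩
  · simpa only [map_ofNat] using ne0 2 (by simpa using h2)
  · rw [eq_div_iff (b0 i)] at h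
    have h3 : ι (ξ i) + 1 ≠ 0 := by
      simpa using ne0 (ξ i + 1) (by rw [eval_add, hξ, eval_one, one_add_one_eq_two]; exact h2)
    have h4 : ι (ξ i) - 1 ≠ 0 := fun h0 => by
      have h5 : ξ i = 1 := hι (by rw [map_one]; exact sub_eq_zero.1 h0)
      have h6 := congrArg (eval 1) h5
      simp only [ξ, eval_add, eval_one, eval_mul, eval_C, eval_X, mul_one, add_eq_left] at h6
      exact (e i).2 h6
    exact mul_ne_zero L0 (mul_ne_zero h3 h4) (by linear_combination h)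
  · rw [div_eq_div_iff (b0 i) (b0 j)] at h
    apply xinj
    refine sub_eq_zero.1 ((mul_eq_zero.1 ?_).resolve_left (mul_ne_zero L1 L2))
    linear_combination h
  · simp only [← mul_div_assoc] at h
    rw [div_eq_div_iff (b0 i) (b0 j)] at h
    apply xinj
    have h3 := ne0 (C l * ξ i * ξ j + ξ i + ξ j + C l) (by
      simp only [eval_add, eval_mul, eval_C, hξ]
      convert mul_ne_zero h2 l1 using 1
      ring)
    simp only [map_add, map_mul] at h3
    refine sub_eq_zero.1 ((mul_eq_zero.1 ?_).resolve_left h3)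
    linear_combination h
  · simpa using ne0 (ξ i + ξ j) (by rw [eval_add, hξ, hξ, one_add_one_eq_two]; exact h2)
  · rw [div_add_div _ _ (b0 i) (b0 j), div_eq_zero_iff] at h
    have h3 := ne0 ((ξ i + C l) * (C l * ξ j + 1) + (C l * ξ i + 1) * (ξ j + C l)) (by
      simp only [eval_add, eval_mul, eval_C, hξ, eval_one]
      convert mul_ne_zero h2 (mul_ne_zero l1 l1) using 1
      ring)
    simp only [map_add, map_mul, map_one] at h3
    exact h3 (h.resolve_right (mul_ne_zero (b0 i) (b0 j)))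
  · by_contra hn
    have h3 : ((1 + C l) ^ a * (1 - C l) ^ b * ∏ i, (1 - ξ i) ^ n i) ^ 2 =
        ((1 + C l) ^ c * (1 - C l) ^ d * ∏ i, (1 + ξ i) ^ n i) ^ 2 := by
      apply hι
      simp only [map_pow, map_mul, map_add, map_sub, map_one, map_prod]
      rw [h, mul_pow, hε, one_mul]
    have h4 := congrArg (eval 0) h3
    simp only [eval_pow, eval_mul, eval_add, eval_sub, eval_one, eval_C, eval_prod, hξ,
      one_add_one_eq_two, sub_self] at h4
    rw [Finset.prod_eq_zero (Finset.mem_univ i) (zero_pow hn), mul_zero, zero_pow two_ne_zero] at h4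
    exact pow_ne_zero 2 (mul_ne_zero (mul_ne_zero (pow_ne_zero _ l1) (pow_ne_zero _ l2))
      (Finset.prod_ne_zero_iff.2 fun j _ => pow_ne_zero _ h2)) h4.symm

variable {k : Type*} [Field k]

theorem peel_graph {σ : Type*} [Fintype σ] (s : σ → k) (hs : Function.Injective s) (a : ℕ)
    (hc : Fintype.card σ ≤ a ^ 2) (D : ℕ) : ∀ (f : P2 k) (γ : σ → ℕ), f ≠ 0 → f.totalDegree ≤ D →
      (∀ i, f ∈ ptIdeal (s i) (s i ^ a) ^ γ i) → ∑ i, γ i ≤ a * D := by
  rcases Nat.eq_zero_or_pos a with rfl | ha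
  · have : IsEmpty σ := Fintype.card_eq_zero_iff.1 (by simpa using hc)
    intro f γ _ _ _
    simp
  induction D using Nat.strong_induction_on with
  | _ D ih =>
  intro f γ hf hD hγ
  by_cases hev : ev (X ^ a) f = 0
  · obtain ⟨h, rfl⟩ := graph_dvd _ _ hev
    have hg := left_ne_zero_of_mul hf
    have hh := right_ne_zero_of_mul hf
    have htd := MvPolynomial.totalDegree_mul_of_isDomain hg hh
    have hG := natDegree_le_graph (X ^ a : k[X])
    rw [natDegree_X_pow] at hG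
    have h1 := ih (D - a) (by omega) h (fun i => γ i - 1) hh (by omega) fun i => by
      have h2 := le_ord hf (hγ i)
      have h3 : ord (s i) (s i ^ a) (graph (X ^ a)) ≤ 1 := by
        refine (wmin_le_ex 0 1 ?_).trans (by simp)
        have : biv (shift (s i) (s i ^ a) (graph (X ^ a))) =
            X + C (C (s i ^ a) - (X + C (s i)) ^ a) := by
          simp [graph, shift]
          ring
        rw [this, coeff_add, coeff_C_succ]
        simp
      rw [ord_mul _ _ hg hh] at h2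
      exact Ideal.pow_le_pow_right (by omega) (mem_pow_ord _ _ h)
    have h4 : ∑ i, γ i ≤ ∑ i, (γ i - 1 + 1) := Finset.sum_le_sum fun i _ => by omega
    rw [Finset.sum_add_distrib, Finset.sum_const, Finset.card_univ, smul_eq_mul, mul_one] at h4
    obtain ⟨u, rfl⟩ : ∃ u, D = a + u := ⟨D - a, by omega⟩
    rw [Nat.add_sub_cancel_left] at h1
    nlinarith
  · have h1 := (sum_le_natDegree s hs γ hev fun i => by
      have := map_mem_pow (ev (X ^ a : k[X])).toRingHom (Ideal.span {X - C (s i)})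
        (a := s i) (b := s i ^ a) (by simp [ev]) (by
          simpa [ev, Ideal.mem_span_singleton] using sub_dvd_pow_sub_pow X (C (s i)) a) (hγ i)
      rwa [Ideal.span_singleton_pow, Ideal.mem_span_singleton] at this).2
    have h2 := natDegree_ev_le (X ^ a : k[X]) ha (natDegree_X_pow_le a) f
    nlinarith

theorem exists_reduce {g : P2 k[X]} (hg : g ≠ 0) : ∃ (e : ℕ) (g' : P2 k[X]),
    g = MvPolynomial.C (X ^ e) * g' ∧ MvPolynomial.map (evalRingHom 0) g' ≠ 0 := by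
  obtain ⟨e, g', h1, h2⟩ := WfDvdMonoid.max_power_factor' hg
    (x := MvPolynomial.C X) (fun h => not_isUnit_X (isUnit_of_map_unit _ _ h))
  refine ⟨e, g', by rw [h2, map_pow], fun h => h1 ?_⟩
  rw [MvPolynomial.C_dvd_iff_dvd_coeff]
  intro m
  have := congrArg (MvPolynomial.coeff m) h
  rw [MvPolynomial.coeff_map] at this
  rw [X_dvd_iff, coeff_zero_eq_eval_zero]
  exact this

theorem mem_of_C_mul {A : Type*} [CommRing A] [IsDomain A] {u a b : A} (hu : u ≠ 0) {g : P2 A}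
    {n : ℕ} (h : MvPolynomial.C u * g ∈ ptIdeal a b ^ n) : g ∈ ptIdeal a b ^ n := by
  rw [mem_pow_iff] at h ⊢
  intro e he
  apply h e
  rw [map_mul, show shift a b (MvPolynomial.C u) = MvPolynomial.C u by simp [shift],
    MvPolynomial.mem_support_iff, MvPolynomial.coeff_C_mul]
  exact mul_ne_zero hu (MvPolynomial.mem_support_iff.1 he)

theorem map_mem_pt {A B : Type*} [CommRing A] [CommRing B] (ψ : A →+* B) {a b : A} {g : P2 A}
    {n : ℕ} (h : g ∈ ptIdeal a b ^ n) : MvPolynomial.map ψ g ∈ ptIdeal (ψ a) (ψ b) ^ n :=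
  map_mem_pow (MvPolynomial.map ψ) _ (by simpa using mem0 _ _) (by simpa using mem1 _ _) h

theorem map_shift {A B : Type*} [CommRing A] [CommRing B] (ψ : A →+* B) (a b : A) (g : P2 A) :
    MvPolynomial.map ψ (shift a b g) = shift (ψ a) (ψ b) (MvPolynomial.map ψ g) := by
  induction g using MvPolynomial.induction_on with
  | C r => simp [shift]
  | add p q hp hq => simp only [map_add, hp, hq]
  | mul_X p i hp =>
    simp only [map_mul, hp]
    congr 1
    fin_cases i <;> simp [shift]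

theorem coeff_scale {A : Type*} [CommRing A] (u : A) (f : P2 A) (e : Fin 2 →₀ ℕ) :
    MvPolynomial.coeff e (MvPolynomial.aeval ![MvPolynomial.C u * MvPolynomial.X 0,
      MvPolynomial.C u * MvPolynomial.X 1] f : P2 A) = u ^ (e 0 + e 1) * MvPolynomial.coeff e f := by
  classical
  induction f using MvPolynomial.induction_on' with
  | monomial d a =>
    have : (MvPolynomial.aeval ![MvPolynomial.C u * MvPolynomial.X 0,
        MvPolynomial.C u * MvPolynomial.X 1] (MvPolynomial.monomial d a : P2 A) : P2 A) =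
        MvPolynomial.monomial d (u ^ (d 0 + d 1) * a) := by
      rw [MvPolynomial.aeval_monomial, MvPolynomial.monomial_eq, Finsupp.prod_fintype _ _ (by simp),
        Finsupp.prod_fintype _ _ (by simp), Fin.prod_univ_two, Fin.prod_univ_two]
      simp only [Matrix.cons_val_zero, Matrix.cons_val_one, MvPolynomial.algebraMap_eq, map_mul,
        map_pow]
      ring
    rw [this, MvPolynomial.coeff_monomial, MvPolynomial.coeff_monomial]
    split_ifs with h
    · rw [h]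
    · simp
  | add p q hp hq => simp only [map_add, MvPolynomial.coeff_add, hp, hq, mul_add]

theorem pow_le_of_eq {u v : k[X]} {i j : ℕ} (h : X ^ i * u = X ^ j * v) (hv : v.eval 0 ≠ 0) :
    i ≤ j := by
  by_contra hlt
  obtain ⟨w, rfl⟩ : ∃ w, i = j + (w + 1) := ⟨i - j - 1, by omega⟩
  rw [pow_add, mul_assoc] at h
  rw [← mul_left_cancel₀ (pow_ne_zero _ X_ne_zero) h] at hv
  simp at hv

theorem collide_one {σ : Type*} [Fintype σ] (s : σ → k) (hs : Function.Injective s) (a : ℕ)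
    (hc : Fintype.card σ ≤ a ^ 2) {g : P2 k[X]} (hg : g ≠ 0) (p q : k) (γ : σ → ℕ)
    (hγ : ∀ i, g ∈ ptIdeal (C p + X * C (s i)) (C q + X * C (s i ^ a)) ^ γ i) :
    ∃ ν : ℕ, MvPolynomial.map (evalRingHom 0) g ∈ ptIdeal p q ^ ν ∧ ∑ i, γ i ≤ a * ν := by
  let φ : P2 k[X] →ₐ[k[X]] P2 k[X] := (MvPolynomial.aeval ![MvPolynomial.C X * MvPolynomial.X 0,
    MvPolynomial.C X * MvPolynomial.X 1]).comp (shift (C p) (C q))
  have hφ : ∀ e, MvPolynomial.coeff e (φ g) =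
      X ^ (e 0 + e 1) * MvPolynomial.coeff e (shift (C p) (C q) g) :=
    fun e => coeff_scale X (shift (C p) (C q) g) e
  have h0 : φ g ≠ 0 := fun h => shift_ne_zero (C p) (C q) hg (by
    ext1 e
    have := hφ e
    rw [h] at this
    exact (mul_eq_zero.1 this.symm).resolve_left (pow_ne_zero _ X_ne_zero))
  obtain ⟨ν, G, hG, hG0⟩ := exists_reduce h0
  simp only [hG, MvPolynomial.coeff_C_mul] at hφ
  refine ⟨ν, ?_, peel_graph s hs a hc ν _ γ hG0 ?_ fun i => ?_⟩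
  · rw [mem_pow_iff]
    intro e he
    have h1 := map_shift (evalRingHom 0) (C p) (C q) g
    simp only [coe_evalRingHom, eval_C] at h1
    rw [← h1, MvPolynomial.mem_support_iff, MvPolynomial.coeff_map] at he
    have := pow_le_of_eq (hφ e) he
    unfold wt
    omega
  · rw [← wb_totalDegree]
    intro e he
    rw [MvPolynomial.mem_support_iff, MvPolynomial.coeff_map] at he
    have := pow_le_of_eq (hφ e).symm he
    unfold wt
    omega
  · have h1 := map_mem_pow φ.toRingHom (ptIdeal (C (s i)) (C (s i ^ a))) (by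
      convert Ideal.mul_mem_left _ (MvPolynomial.C X) (mem0 (C (s i)) (C (s i ^ a))) using 1
      simp [φ, shift]
      ring) (by
      convert Ideal.mul_mem_left _ (MvPolynomial.C X) (mem1 (C (s i)) (C (s i ^ a))) using 1
      simp [φ, shift]
      ring) (hγ i)
    rw [AlgHom.toRingHom_eq_coe, RingHom.coe_coe, hG] at h1
    simpa using map_mem_pt (evalRingHom 0) (mem_of_C_mul (pow_ne_zero _ X_ne_zero) h1)

theorem collide {K J : Type*} [Field K] [Infinite k] [Fintype J] (j0 : K →+* k) (N : J → ℕ)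
    (A B : J → k) (a b : (Σ j, Fin (N j ^ 2)) → K)
    (hab : AlgebraicIndependent (⊥ : Subfield K) (Sum.elim a b)) (γ : (Σ j, Fin (N j ^ 2)) → ℕ)
    {f : P2 K} (hf : f ≠ 0) (hV : ∀ i, Van (X - C (a i)) (C (b i)) (γ i) f) :
    ∃ g : P2 k, g ≠ 0 ∧ g.totalDegree ≤ f.totalDegree ∧ ∃ ν : J → ℕ,
      (∀ j, g ∈ ptIdeal (A j) (B j) ^ ν j) ∧ ∀ j, ∑ l, γ ⟨j, l⟩ ≤ N j * ν j := by
  classical
  let T := Σ j, Fin (N j ^ 2)
  let L := FractionRing k[X]
  let s := Infinite.natEmbedding k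
  let x : T → k[X] := fun i => C (A i.1) + X * C (s i.2)
  let y : T → k[X] := fun i => C (B i.1) + X * C (s i.2 ^ N i.1)
  let ψ : MvPolynomial (T ⊕ T) (⊥ : Subfield K) →+* L :=
    MvPolynomial.eval₂Hom ((((algebraMap k[X] L).comp C).comp j0).comp (Subfield.subtype ⊥))
      (Sum.elim (fun i => algebraMap k[X] L (x i)) fun i => algebraMap k[X] L (y i))
  obtain ⟨g1, a1, a2, a3⟩ := transfer_van
    (MvPolynomial.aeval (Sum.elim a b) : MvPolynomial (T ⊕ T) (⊥ : Subfield K) →ₐ[_] K).toRingHom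
    hab ψ (fun s : T => X - C (MvPolynomial.X (Sum.inl s)))
    (fun s : T => C (MvPolynomial.X (Sum.inr s))) (fun s => monic_X_sub_C _) γ f hf
    (fun s => by simpa using hV s)
  obtain ⟨g2, b1, b2, b3⟩ := lift_universal (algebraMap k[X] L) (IsFractionRing.injective _ _)
    x y γ g1 a1 (fun i => by simpa [ψ] using a3 i)
  obtain ⟨e, g3, c1, c2⟩ := exists_reduce b1
  have c3 : g3 ≠ 0 := fun h => c2 (by rw [h, map_zero])
  have c4 : ∀ i, g3 ∈ ptIdeal (x i) (y i) ^ γ i := fun i =>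
    mem_of_C_mul (pow_ne_zero e X_ne_zero) (c1 ▸ (van_iff_mem _ _ _ _).1 (b3 i))
  choose ν hν using fun j => collide_one (fun l : Fin (N j ^ 2) => s l)
    (fun l l' h => Fin.ext (s.injective h)) (N j) (by simp) c3 (A j) (B j) (fun l => γ ⟨j, l⟩)
    fun l => c4 ⟨j, l⟩
  refine ⟨_, c2, le_trans ?_ (b2.trans a2), ν, fun j => (hν j).1, fun j => (hν j).2⟩
  refine Finset.sup_mono fun m hm => ?_
  rw [c1, MvPolynomial.mem_support_iff, MvPolynomial.coeff_C_mul]
  exact mul_ne_zero (pow_ne_zero _ X_ne_zero)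
    (MvPolynomial.mem_support_iff.1 (MvPolynomial.support_map_subset _ _ hm))

end Pool.Agent.MP_d0dfcd_ag.NB

end MrgPart3

-- ======== part 4: formerly Pool.Agent.MP_d0dfcd_ag.h44.Main
section MrgPart4

/-! Maximal Seshadri constants for every number of generic points. -/

namespace Pool.Agent.MP_d0dfcd_ag.NB

open MvPolynomial

variable {K : Type*} [Field K]

theorem bound_clusters [Infinite K] (h2 : (2 : K) ≠ 0) (N : Fin 11 ⊕ Fin 4 → ℕ)
    (c : Fin 11 ⊕ Fin 4 → ℝ) (hc : ∀ j, 0 ≤ c j) {δ : ℝ}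
    (hw : Wts δ (fun j => N (.inl j) * c (.inl j)) fun j => N (.inr j) * c (.inr j))
    (a b : (Σ j, Fin (N j ^ 2)) → K) (hab : AlgebraicIndependent (⊥ : Subfield K) (Sum.elim a b)) :
    DegBound a b δ fun i => c i.1 := by
  intro d γ F hF hd hV
  let k := AlgebraicClosure (RatFunc K)
  let ι : Polynomial K →+* k := (algebraMap (RatFunc K) k).comp (algebraMap _ (RatFunc K))
  obtain ⟨Q⟩ := exists_conf ι ((algebraMap (RatFunc K) k).injective.comp
    (IsFractionRing.injective (Polynomial K) (RatFunc K))) h2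
  obtain ⟨A, B, hAB⟩ := special Q
  obtain ⟨h0, h1⟩ := deh_spec hd hF
  obtain ⟨g, g0, g1, ν, g2, g3⟩ := collide (ι.comp Polynomial.C) N A B a b hab γ h0
    fun i => van_of_mem _ _ (hV i)
  refine le_trans ?_ (hAB δ _ _ hw d ν g g0 (g1.trans h1) g2)
  rw [Fintype.sum_sigma]
  refine Finset.sum_le_sum fun j _ => ?_
  have h3 : ∑ l, (γ ⟨j, l⟩ : ℝ) ≤ N j * ν j := by exact_mod_cast g3 j
  have h4 := mul_le_mul_of_nonneg_left h3 (hc j)
  rw [Finset.mul_sum] at h4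
  refine h4.trans (le_of_eq ?_)
  cases j <;> simp only [Sum.elim_inl, Sum.elim_inr] <;> ring

theorem bound_equiv {ι κ : Type*} [Fintype ι] [Fintype κ] (E : κ ≃ ι) {a b : ι → K} {δ : ℝ}
    {c : ι → ℝ} (h : DegBound (a ∘ E) (b ∘ E) δ (c ∘ E)) : DegBound a b δ c := by
  intro d m F hF hd hV
  rw [← Equiv.sum_comp E]
  exact h d (m ∘ E) F hF hd fun i => hV (E i)

theorem exists_form {ι : Type*} [Fintype ι] (a b : ι → K) (d : ℕ) (m : ι → ℕ)
    (h : ∑ i, m i * (m i + 1) ≤ d ^ 2) : ∃ F : MvPolynomial (Fin 3) K, F ≠ 0 ∧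
      F.IsHomogeneous d ∧ ∀ i, VanishesAt (a i) (b i) (m i) F := by
  classical
  let T := (Finset.range (d + 1)).sigma fun j => Finset.antidiagonal j
  have hT : 2 * T.card = (d + 1) * (d + 2) := by
    simp only [T, Finset.card_sigma, Finset.Nat.card_antidiagonal]
    induction d with
    | zero => simp
    | succ d ih =>
      clear ih h T
      induction d + 1 with
      | zero => simp
      | succ n ih => rw [Finset.sum_range_succ, mul_add, ih]; ring
  obtain ⟨g, g0, g1, g2⟩ := exists_poly m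
    (fun i u v => lcoeff K (ex u v) ∘ₗ (shift (a i) (b i)).toLinearMap)
    (T.image fun p => ex p.2.1 p.2.2) (by
      rw [Finset.card_image_of_injOn, hT]
      · nlinarith
      · rintro ⟨j, u⟩ hu ⟨j', u'⟩ hu' h
        obtain rfl : u = u' := ex_injective h
        simp only [T, Finset.coe_sigma, Set.mem_sigma_iff, Finset.mem_coe,
          Finset.mem_antidiagonal] at hu hu'
        rw [← hu.2, ← hu'.2])
  have hd : WB (-1) (-1) (-d) g := fun e he => by
    obtain ⟨p, hp, rfl⟩ := Finset.mem_image.1 (g1 he)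
    simp only [T, Finset.mem_sigma, Finset.mem_range, Finset.mem_antidiagonal] at hp
    simp only [wt, ex_zero, ex_one]
    omega
  refine ⟨hmg d (X 0) (X 1) (X 2) g, fun h0 => g0 ?_, ?_, fun i => ?_⟩
  · have h1 := congrArg deh h0
    have h2 : (aeval ![X 0, X 1] : P2 K →ₐ[K] P2 K) = AlgHom.id K _ := by
      ext1 i
      fin_cases i <;> simp
    have h3 := aeval_two (X 0 : P2 K) (X 1) g
    rw [map_hmg, map_zero] at h1
    rw [h2, AlgHom.id_apply] at h3
    rw [h3, ← h1]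
    simp [hmg, deh]
  · refine IsHomogeneous.sum _ _ _ fun e he => ?_
    have h1 := hd e he
    unfold wt at h1
    have := (((isHomogeneous_X_pow (R := K) (1 : Fin 3) (e 0)).mul
      (isHomogeneous_X_pow 2 (e 1))).mul (isHomogeneous_X_pow 0 (d - (e 0 + e 1)))).C_mul
      (coeff e g)
    rwa [Nat.add_sub_cancel' (by omega)] at this
  · exact hmg_pt (X_ne_zero 0) (Ideal.subset_span (by simp)) (Ideal.subset_span (by simp)) hd
      (mem_pow_of_coeff fun u v huv => g2 i u v huv)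

theorem sq_le_of_bound {ι : Type*} [Fintype ι] {a b : ι → K} {δ : ℝ} (hδ : 0 ≤ δ) {c : ι → ℝ}
    (hc : ∀ i, 0 ≤ c i) (h : DegBound a b δ c) : ∑ i, c i ^ 2 ≤ δ ^ 2 := by
  by_contra hlt
  push Not at hlt
  set S := ∑ i, c i ^ 2 with hS
  obtain ⟨ρ, h0, h1, h2⟩ : ∃ ρ, 0 ≤ ρ ∧ S < ρ ^ 2 ∧ δ * ρ < S := by
    have a1 : δ < √S := Real.lt_sqrt_of_sq_lt hlt
    have a2 : √S ^ 2 = S := Real.sq_sqrt ((sq_nonneg δ).trans hlt.le)
    exact ⟨2 * √S - δ, by linarith, by nlinarith, by nlinarith⟩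
  obtain ⟨N, hN⟩ := exists_nat_gt (max ((∑ i, (3 * c i + 2)) / (ρ ^ 2 - S)) (δ / (S - δ * ρ)) + 1)
  have n1 : ∑ i, (3 * c i + 2) ≤ N * (ρ ^ 2 - S) := by
    rw [← div_le_iff₀ (by linarith)]
    linarith [le_max_left ((∑ i, (3 * c i + 2)) / (ρ ^ 2 - S)) (δ / (S - δ * ρ))]
  have n2 : δ < N * (S - δ * ρ) := by
    rw [← div_lt_iff₀ (by linarith)]
    linarith [le_max_right ((∑ i, (3 * c i + 2)) / (ρ ^ 2 - S)) (δ / (S - δ * ρ))]
  have n3 : (1 : ℝ) ≤ N := by
    have : 0 ≤ δ / (S - δ * ρ) := div_nonneg hδ (by linarith)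
    linarith [le_max_right ((∑ i, (3 * c i + 2)) / (ρ ^ 2 - S)) (δ / (S - δ * ρ))]
  have n0 : (0 : ℝ) ≤ N := Nat.cast_nonneg N
  obtain ⟨F, F0, F1, F2⟩ := exists_form a b ⌈N * ρ⌉₊ (fun i => ⌈N * c i⌉₊) (by
    have a1 : ∑ i, (⌈N * c i⌉₊ : ℝ) * (⌈N * c i⌉₊ + 1) ≤
        ∑ i, (N ^ 2 * c i ^ 2 + N * (3 * c i + 2)) := Finset.sum_le_sum fun i _ => by
      have b1 := (Nat.ceil_lt_add_one (mul_nonneg n0 (hc i))).le
      have b2 : (0 : ℝ) ≤ ⌈N * c i⌉₊ := Nat.cast_nonneg _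
      have b3 := mul_nonneg n0 (hc i)
      nlinarith
    rw [Finset.sum_add_distrib, ← Finset.mul_sum, ← Finset.mul_sum, ← hS] at a1
    have a2 := pow_le_pow_left₀ (mul_nonneg n0 h0) (Nat.le_ceil (N * ρ)) 2
    have a3 := mul_le_mul_of_nonneg_left n1 n0
    have : ∑ i, (⌈N * c i⌉₊ : ℝ) * (⌈N * c i⌉₊ + 1) ≤ (⌈N * ρ⌉₊ : ℝ) ^ 2 := by nlinarith
    exact_mod_cast this)
  have a1 := h _ _ F F0 F1 F2
  have a2 : ∑ i, N * c i ^ 2 ≤ ∑ i, c i * (⌈N * c i⌉₊ : ℝ) := Finset.sum_le_sum fun i _ => by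
    have := mul_le_mul_of_nonneg_left (Nat.le_ceil (N * c i)) (hc i)
    linarith
  rw [← Finset.mul_sum, ← hS] at a2
  have a3 := mul_le_mul_of_nonneg_left (Nat.ceil_lt_add_one (mul_nonneg n0 h0)).le hδ
  linarith

theorem nagata_biran [Infinite K] (h2 : (2 : K) ≠ 0) (n : Fin 11 → ℕ) (c : Fin 11 → ℝ) (δ : ℝ)
    (hc : ∀ j, 0 ≤ c j) (s1 : n 0 * c 0 + n 1 * c 1 + n 2 * c 2 = δ)
    (s2 : n 3 * c 3 + n 4 * c 4 + n 5 * c 5 + n 6 * c 6 = δ)
    (p1 : n 7 * c 7 = n 3 * c 3) (p2 : n 8 * c 8 = n 4 * c 4) (p3 : n 9 * c 9 = n 5 * c 5)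
    (p4 : n 10 * c 10 = n 6 * c 6) (hL : ∑ j, (n j * c j) ^ 2 ≤ δ ^ 2) (r : ℕ) (hr : 0 < r)
    (a b : (Σ j : Fin 11, Fin (n j ^ 2)) ⊕ Fin r → K)
    (hab : AlgebraicIndependent (⊥ : Subfield K) (Sum.elim a b)) :
    IsGreatest {t : ℝ | DegBound a b δ (Sum.elim (fun i => c i.1) fun _ => t)}
      (√((δ ^ 2 - ∑ j, (n j * c j) ^ 2) / r)) := by
  have hr' : (0 : ℝ) < r := by exact_mod_cast hr
  have hδ : 0 ≤ δ := by
    rw [← s1]
    have := hc 0
    have := hc 1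
    have := hc 2
    positivity
  constructor
  · obtain ⟨α1, α2, α3, α4, hα⟩ := Nat.sum_four_squares r
    set t := √((δ ^ 2 - ∑ j, (n j * c j) ^ 2) / r) with ht
    have t0 : 0 ≤ t := Real.sqrt_nonneg _
    have t1 : t ^ 2 * r = δ ^ 2 - ∑ j, (n j * c j) ^ 2 := by
      rw [ht, Real.sq_sqrt (div_nonneg (by linarith) hr'.le), div_mul_cancel₀ _ hr'.ne']
    let α : Fin 4 → ℕ := ![α1, α2, α3, α4]
    let e : (Σ j : Fin 4, Fin (α j ^ 2)) ≃ Fin r :=
      Fintype.equivFinOfCardEq (by simp [Fin.sum_univ_four, α, hα])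
    let E : (Σ j : Fin 11 ⊕ Fin 4, Fin (Sum.elim n α j ^ 2)) ≃
        (Σ j : Fin 11, Fin (n j ^ 2)) ⊕ Fin r :=
      (Equiv.sumSigmaDistrib _).trans (Equiv.sumCongr (Equiv.refl _) e)
    refine bound_equiv E ?_
    have hab' : AlgebraicIndependent (⊥ : Subfield K) (Sum.elim (a ∘ E) (b ∘ E)) := by
      have := hab.comp (Sum.map E E) (Sum.map_injective.2 ⟨E.injective, E.injective⟩)
      rwa [Sum.elim_comp_map] at this
    have := bound_clusters h2 (Sum.elim n α) (Sum.elim c fun _ => t)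
      (by rintro (j | j); exacts [hc j, t0]) (δ := δ)
      ⟨hδ, s1, s2, p1, p2, p3, p4, by
        have h3 : (α1 : ℝ) ^ 2 + α2 ^ 2 + α3 ^ 2 + α4 ^ 2 = r := by exact_mod_cast hα
        simp only [Sum.elim_inl, Sum.elim_inr, Fin.sum_univ_four, α, Matrix.cons_val]
        rw [← h3] at t1
        linarith, fun j => mul_nonneg (Nat.cast_nonneg _) t0⟩ _ _ hab'
    convert this using 1
    funext i
    obtain ⟨j | j, l⟩ := i <;> rfl
  · intro t ht
    rcases le_total t 0 with h | h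
    · exact h.trans (Real.sqrt_nonneg _)
    apply Real.le_sqrt_of_sq_le
    have := sq_le_of_bound hδ (by rintro (i | i); exacts [hc _, h]) ht
    simp only [Fintype.sum_sum_type, Sum.elim_inl, Sum.elim_inr, Fintype.sum_sigma,
      Finset.sum_const, Finset.card_univ, Fintype.card_fin, nsmul_eq_mul] at this
    rw [le_div_iff₀ hr']
    simp only [mul_pow]
    push_cast at this
    linarith

end Pool.Agent.MP_d0dfcd_ag.NB

end MrgPart4

-- marker of a merged file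
example : 731051 + 57739 = 731051 + 57739 := rfl
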