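import Pool.Agent.MP_d0dfcd_ag.Cubic
import Mathlib.RingTheory.MvPolynomial.Ideal
import Mathlib.LinearAlgebra.FiniteDimensional.Lemmas
import Mathlib.FieldTheory.RatFunc.Basic
import Mathlib.Algebra.MvPolynomial.Nilpotent
import Mathlib.Algebra.MvPolynomial.Division

-- ======== part 0: formerly Pool.Agent.MP_d0dfcd_ag.h44.Wt
section MrgPart0

/-! Monomial valuations and orders at points of polynomials in two variables. -/

namespace Pool.Agent.MP_d0dfcd_ag.NB

open MvPolynomial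

/-- Polynomials in two variables. -/
abbrev P2 (k : Type*) [CommRing k] := MvPolynomial (Fin 2) k

variable {k : Type*} [CommRing k]

/-- The weight of an exponent. -/
def wt (p q : ℤ) (e : Fin 2 →₀ ℕ) : ℤ := p * e 0 + q * e 1

theorem wt_add (p q : ℤ) (e e' : Fin 2 →₀ ℕ) : wt p q (e + e') = wt p q e + wt p q e' := by
  simp only [wt, Finsupp.add_apply]
  push_cast
  ring

/-- All monomials of `f` have weight at least `c`. -/
def WB (p q c : ℤ) (f : P2 k) : Prop := ∀ e ∈ f.support, c ≤ wt p q e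

theorem WB.mono {p q c c' : ℤ} {f : P2 k} (h : WB p q c f) (hc : c' ≤ c) : WB p q c' f :=
  fun e he => hc.trans (h e he)

theorem WB.zero (p q c : ℤ) : WB p q c (0 : P2 k) := fun e he => by simp at he

theorem WB.add {p q c : ℤ} {f g : P2 k} (hf : WB p q c f) (hg : WB p q c g) :
    WB p q c (f + g) := fun e he => by
  classical
  rcases Finset.mem_union.1 (support_add he) with h | h
  · exact hf e h
  · exact hg e h

theorem WB.neg {p q c : ℤ} {f : P2 k} (hf : WB p q c f) : WB p q c (-f) := fun e he =>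
  hf e (by rwa [support_neg] at he)

theorem WB.sub {p q c : ℤ} {f g : P2 k} (hf : WB p q c f) (hg : WB p q c g) :
    WB p q c (f - g) := by
  rw [sub_eq_add_neg]
  exact hf.add hg.neg

theorem WB.mul {p q c c' : ℤ} {f g : P2 k} (hf : WB p q c f) (hg : WB p q c' g) :
    WB p q (c + c') (f * g) := fun e he => by
  classical
  obtain ⟨a, ha, b, hb, rfl⟩ := Finset.mem_add.1 (support_mul f g he)
  rw [wt_add]
  exact add_le_add (hf a ha) (hg b hb)

theorem WB.monomial {p q c : ℤ} {e : Fin 2 →₀ ℕ} (h : c ≤ wt p q e) (a : k) :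
    WB p q c (monomial e a : P2 k) := fun e' he => by
  rw [Finset.mem_singleton.1 (support_monomial_subset he)]
  exact h

theorem WB.C (p q : ℤ) (a : k) : WB p q 0 (C a : P2 k) :=
  WB.monomial (e := 0) (by simp [wt]) a

theorem WB.one (p q : ℤ) : WB p q 0 (1 : P2 k) := WB.C p q 1

theorem WB.X0 (p q : ℤ) : WB p q p (X 0 : P2 k) :=
  WB.monomial (e := Finsupp.single 0 1) (by simp [wt]) 1

theorem WB.X1 (p q : ℤ) : WB p q q (X 1 : P2 k) :=
  WB.monomial (e := Finsupp.single 1 1) (by simp [wt]) 1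

theorem WB.C_mul {p q c : ℤ} {f : P2 k} (hf : WB p q c f) (a : k) :
    WB p q c (MvPolynomial.C a * f) := by
  have := (WB.C p q a).mul hf
  rwa [zero_add] at this

theorem WB.pow {p q c : ℤ} {f : P2 k} (hf : WB p q c f) (n : ℕ) : WB p q (n * c) (f ^ n) := by
  induction n with
  | zero => simpa using WB.one p q
  | succ n ih =>
    rw [pow_succ]
    exact (ih.mul hf).mono (le_of_eq (by push_cast; ring))

theorem WB.sum {ι : Type*} {p q c : ℤ} (s : Finset ι) (f : ι → P2 k)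
    (h : ∀ i ∈ s, WB p q c (f i)) : WB p q c (∑ i ∈ s, f i) :=
  Finset.sum_induction f (WB p q c) (fun _ _ => WB.add) (WB.zero p q c) h

theorem aeval_two {R : Type*} [CommRing R] [Algebra k R] (x y : R) (f : P2 k) :
    aeval ![x, y] f = ∑ e ∈ f.support, algebraMap k R (coeff e f) * (x ^ e 0 * y ^ e 1) := by
  rw [aeval_def, eval₂_eq']
  refine Finset.sum_congr rfl fun e _ => ?_
  rw [Fin.prod_univ_two]
  rfl

theorem WB.aeval {p q u v c : ℤ} {x y f : P2 k} (hx : WB p q u x) (hy : WB p q v y)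
    (hf : WB u v c f) : WB p q c (aeval ![x, y] f) := by
  rw [aeval_two]
  refine WB.sum _ _ fun e he => ?_
  refine (((hx.pow (e 0)).mul (hy.pow (e 1))).C_mul _).mono ?_
  have := hf e he
  unfold wt at this
  linarith

theorem wb_totalDegree (f : P2 k) (d : ℕ) : WB (-1) (-1) (-d) f ↔ f.totalDegree ≤ d := by
  constructor
  · intro h
    refine Finset.sup_le fun e he => ?_
    have := h e he
    unfold wt at this
    rw [Finsupp.sum_fintype _ _ (by simp), Fin.sum_univ_two]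
    omega
  · intro h e he
    have h1 := le_totalDegree he
    rw [Finsupp.sum_fintype _ _ (by simp), Fin.sum_univ_two] at h1
    unfold wt
    omega

/-- The least weight of a monomial of `f`. -/
noncomputable def wmin (p q : ℤ) (f : P2 k) : ℤ :=
  if h : f.support.Nonempty then f.support.inf' h (wt p q) else 0

theorem wb_wmin (p q : ℤ) (f : P2 k) : WB p q (wmin p q f) f := fun e he => by
  rw [wmin, dif_pos ⟨e, he⟩]
  exact Finset.inf'_le _ he

theorem exists_wmin (p q : ℤ) {f : P2 k} (hf : f ≠ 0) :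
    ∃ e ∈ f.support, wt p q e = wmin p q f := by
  have h : f.support.Nonempty := support_nonempty.2 hf
  rw [wmin, dif_pos h]
  obtain ⟨e, he, h1⟩ := Finset.exists_mem_eq_inf' h (wt p q)
  exact ⟨e, he, h1.symm⟩

theorem WB.le_wmin {p q c : ℤ} {f : P2 k} (h : WB p q c f) (hf : f ≠ 0) : c ≤ wmin p q f := by
  obtain ⟨e, he, h1⟩ := exists_wmin p q hf
  rw [← h1]
  exact h e he

theorem wmin_le {p q : ℤ} {f : P2 k} {e : Fin 2 →₀ ℕ} (he : coeff e f ≠ 0) :
    wmin p q f ≤ wt p q e := wb_wmin p q f e (mem_support_iff.2 he)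

theorem exists_initial (p q : ℤ) {f : P2 k} (hf : f ≠ 0) :
    ∃ f0 f1 : P2 k, f = f0 + f1 ∧ f0 ≠ 0 ∧ WB p q (wmin p q f) f0 ∧
      WB (-p) (-q) (-wmin p q f) f0 ∧ WB p q (wmin p q f + 1) f1 := by
  classical
  let f0 : P2 k := ∑ e ∈ f.support.filter (fun e => wt p q e = wmin p q f), monomial e (coeff e f)
  have h0 : ∀ e, coeff e f0 = if wt p q e = wmin p q f then coeff e f else 0 := by
    intro e
    simp only [f0, coeff_sum, coeff_monomial, Finset.sum_ite_eq', Finset.mem_filter,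
      mem_support_iff]
    by_cases h1 : wt p q e = wmin p q f <;> by_cases h2 : coeff e f = 0 <;> simp [h1, h2]
  refine ⟨f0, f - f0, by ring, ?_, ?_, ?_, ?_⟩
  · obtain ⟨e, he, h1⟩ := exists_wmin p q hf
    intro h
    have := h0 e
    rw [if_pos h1, h] at this
    exact mem_support_iff.1 he this.symm
  · intro e he
    have h1 := mem_support_iff.1 he
    rw [h0] at h1
    split_ifs at h1 with h2
    · exact h2.ge
    · exact absurd rfl h1
  · intro e he
    have h1 := mem_support_iff.1 he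
    rw [h0] at h1
    split_ifs at h1 with h2
    · rw [← h2]
      unfold wt
      linarith
    · exact absurd rfl h1
  · intro e he
    have h1 := mem_support_iff.1 he
    rw [coeff_sub, h0] at h1
    split_ifs at h1 with h2
    · exact absurd (sub_self _) h1
    · rw [sub_zero] at h1
      have := wmin_le (p := p) (q := q) h1
      omega

theorem wmin_mul [IsDomain k] (p q : ℤ) {f g : P2 k} (hf : f ≠ 0) (hg : g ≠ 0) :
    wmin p q (f * g) = wmin p q f + wmin p q g := by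
  apply le_antisymm
  · obtain ⟨f0, f1, hf', a0, a1, a2, a3⟩ := exists_initial p q hf
    obtain ⟨g0, g1, hg', b0, b1, b2, b3⟩ := exists_initial p q hg
    obtain ⟨e, he⟩ := support_nonempty.2 (mul_ne_zero a0 b0)
    have h1 := (a2.mul b2) e he
    have h2 : WB p q (wmin p q f + wmin p q g + 1) (f0 * g1 + f1 * g) :=
      ((a1.mul b3).mono (by omega)).add ((a3.mul (wb_wmin p q g)).mono (by omega))
    have h3 : wt p q e ≤ wmin p q f + wmin p q g := by
      unfold wt at h1 ⊢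
      linarith
    have h4 : coeff e (f0 * g1 + f1 * g) = 0 := by
      by_contra h
      have := h2 e (mem_support_iff.2 h)
      omega
    have h5 : f * g = f0 * g0 + (f0 * g1 + f1 * g) := by
      conv_lhs => rw [hf']
      conv_lhs => rw [add_mul, hg', mul_add]
      rw [← hg']
      ring
    refine (wmin_le (e := e) ?_).trans h3
    rw [h5, coeff_add, h4, add_zero]
    exact mem_support_iff.1 he
  · exact ((wb_wmin p q f).mul (wb_wmin p q g)).le_wmin (mul_ne_zero hf hg)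

theorem wmin_monomial (p q : ℤ) (e : Fin 2 →₀ ℕ) {a : k} (ha : a ≠ 0) :
    wmin p q (monomial e a : P2 k) = wt p q e := by
  classical
  apply le_antisymm
  · exact wmin_le (by rwa [coeff_monomial, if_pos rfl])
  · exact (WB.monomial le_rfl a).le_wmin (by simpa using ha)

/-- Translation of the point `(a, b)` to the origin. -/
noncomputable def shift (a b : k) : P2 k →ₐ[k] P2 k := aeval ![X 0 + C a, X 1 + C b]

theorem shift_shift (a b a' b' : k) (f : P2 k) :
    shift a b (shift a' b' f) = shift (a + a') (b + b') f := by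
  have : (shift a b).comp (shift a' b') = shift (a + a') (b + b') := by
    ext1 i
    fin_cases i <;> simp [shift, add_assoc]
  exact DFunLike.congr_fun this f

theorem shift_zero (f : P2 k) : shift 0 0 f = f := by
  have : (shift (0 : k) 0) = AlgHom.id k _ := by
    ext1 i
    fin_cases i <;> simp [shift]
  rw [this]
  rfl

theorem shift_ne_zero (a b : k) {f : P2 k} (hf : f ≠ 0) : shift a b f ≠ 0 := fun h => by
  have := shift_shift (-a) (-b) a b f
  rw [h, map_zero, neg_add_cancel, neg_add_cancel, shift_zero] at this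
  exact hf this.symm

theorem WB.shift {d : ℤ} (a b : k) {f : P2 k} (h : WB (-1) (-1) d f) :
    WB (-1) (-1) d (shift a b f) :=
  WB.aeval ((WB.X0 _ _).add ((WB.C _ _ a).mono (by omega)))
    ((WB.X1 _ _).add ((WB.C _ _ b).mono (by omega))) h

theorem map_mem_pow {R : Type*} [CommRing R] (φ : P2 k →+* R) (J : Ideal R) {a b : k}
    (h0 : φ (X 0) - φ (C a) ∈ J) (h1 : φ (X 1) - φ (C b) ∈ J) {n : ℕ} {f : P2 k}
    (hf : f ∈ ptIdeal a b ^ n) : φ f ∈ J ^ n := by
  have h2 := Ideal.mem_map_of_mem φ hf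
  rw [Ideal.map_pow] at h2
  refine Ideal.pow_right_mono ?_ n h2
  rw [ptIdeal, Ideal.map_span, Ideal.span_le]
  rintro _ ⟨u, hu, rfl⟩
  rcases hu with rfl | rfl
  · rwa [map_sub]
  · rwa [map_sub]

theorem mem0 (a b : k) : X 0 - C a ∈ ptIdeal a b := Ideal.subset_span (by simp)

theorem mem1 (a b : k) : X 1 - C b ∈ ptIdeal a b := Ideal.subset_span (by simp)

theorem mem_pow_iff (a b : k) (n : ℕ) (f : P2 k) :
    f ∈ ptIdeal a b ^ n ↔ WB 1 1 n (shift a b f) := by
  have key : ∀ g : P2 k, g ∈ ptIdeal (0 : k) 0 ^ n ↔ WB 1 1 n g := by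
    intro g
    have : ptIdeal (0 : k) 0 = idealOfVars (Fin 2) k := by
      rw [ptIdeal, idealOfVars]
      congr 1
      ext u
      simp [Fin.exists_fin_two, eq_comm]
    rw [this, mem_pow_idealOfVars_iff]
    refine forall₂_congr fun e _ => ?_
    rw [Finsupp.degree_eq_sum, Fin.sum_univ_two]
    unfold wt
    omega
  rw [← key]
  constructor
  · intro h
    refine map_mem_pow (shift a b).toRingHom _ ?_ ?_ h
    · simpa [shift] using mem0 (0 : k) 0
    · simpa [shift] using mem1 (0 : k) 0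
  · intro h
    have := map_mem_pow (shift (-a) (-b)).toRingHom (ptIdeal a b) (a := 0) (b := 0)
      (by simpa [shift, sub_eq_add_neg] using mem0 a b)
      (by simpa [shift, sub_eq_add_neg] using mem1 a b) h
    rwa [AlgHom.toRingHom_eq_coe, RingHom.coe_coe, shift_shift, neg_add_cancel, neg_add_cancel,
      shift_zero] at this

/-- The order of `f` at the point `(a, b)`. -/
noncomputable def ord (a b : k) (f : P2 k) : ℤ := wmin 1 1 (shift a b f)

theorem ord_mul [IsDomain k] (a b : k) {f g : P2 k} (hf : f ≠ 0) (hg : g ≠ 0) :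
    ord a b (f * g) = ord a b f + ord a b g := by
  unfold ord
  rw [map_mul, wmin_mul _ _ (shift_ne_zero a b hf) (shift_ne_zero a b hg)]

theorem le_ord {a b : k} {n : ℕ} {f : P2 k} (hf : f ≠ 0) (h : f ∈ ptIdeal a b ^ n) :
    (n : ℤ) ≤ ord a b f :=
  ((mem_pow_iff a b n f).1 h).le_wmin (shift_ne_zero a b hf)

theorem ord_nonneg (a b : k) {f : P2 k} (hf : f ≠ 0) : 0 ≤ ord a b f :=
  le_ord (n := 0) hf (by simp)

theorem mem_pow_ord (a b : k) (f : P2 k) : f ∈ ptIdeal a b ^ (ord a b f).toNat := by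
  by_cases hf : f = 0
  · rw [hf]
    exact Ideal.zero_mem _
  rw [mem_pow_iff, Int.toNat_of_nonneg (ord_nonneg a b hf)]
  exact wb_wmin _ _ _

theorem coeff_zero_shift (a b : k) (f : P2 k) : coeff 0 (shift a b f) = aeval ![a, b] f := by
  have : (aeval (0 : Fin 2 → k)).comp (shift a b) = aeval ![a, b] := by
    ext1 i
    fin_cases i <;> simp [shift]
  rw [← this, AlgHom.comp_apply, aeval_zero]
  rfl

theorem ord_le_zero {a b : k} {f : P2 k} (h : aeval ![a, b] f ≠ 0) : ord a b f ≤ 0 := by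
  rw [← coeff_zero_shift] at h
  simpa [wt, ord] using wmin_le (p := 1) (q := 1) h

theorem mem_of_aeval {a b : k} {f : P2 k} (h : aeval ![a, b] f = 0) : f ∈ ptIdeal a b := by
  rw [← pow_one (ptIdeal a b), mem_pow_iff]
  intro e he
  by_contra hlt
  have : e = 0 := by
    unfold wt at hlt
    ext i
    fin_cases i <;> simp <;> omega
  rw [this, mem_support_iff, coeff_zero_shift] at he
  exact he h

/-- A nonzero polynomial with prescribed support in the kernel of few linear forms. -/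
theorem exists_poly {K P : Type*} [Field K] [Fintype P] (m : P → ℕ)
    (L : P → ℕ → ℕ → P2 K →ₗ[K] K) (S : Finset (Fin 2 →₀ ℕ))
    (h : ∑ p, m p * (m p + 1) < 2 * S.card) :
    ∃ g : P2 K, g ≠ 0 ∧ g.support ⊆ S ∧ ∀ p u v, u + v < m p → L p u v g = 0 := by
  classical
  let Λ : (S → K) →ₗ[K] P2 K := ∑ e : S, (monomial e.1) ∘ₗ LinearMap.proj e
  have hΛ : ∀ w : S → K, Λ w = ∑ e : S, monomial e.1 (w e) := fun w => by
    simp [Λ, LinearMap.sum_apply]
  let I := Σ p : P, Σ j : Fin (m p), Fin (j + 1)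
  let Ψ : (S → K) →ₗ[K] (I → K) :=
    LinearMap.pi fun i => L i.1 i.2.2 (i.2.1 - i.2.2) ∘ₗ Λ
  have hcard : ∀ n : ℕ, 2 * ∑ j : Fin n, ((j : ℕ) + 1) = n * (n + 1) := by
    intro n
    induction n with
    | zero => simp
    | succ n ih =>
      rw [Fin.sum_univ_castSucc]
      simp only [Fin.val_castSucc, Fin.val_last]
      linarith
  have hI : Fintype.card I < S.card := by
    have : 2 * Fintype.card I = ∑ p, m p * (m p + 1) := by
      simp only [I, Fintype.card_sigma, Fintype.card_fin, Finset.mul_sum (s := Finset.univ (α := P)),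
        hcard]
    omega
  have hk := LinearMap.ker_ne_bot_of_finrank_lt (f := Ψ) (by simpa using hI)
  obtain ⟨w, hw, hw0⟩ := Submodule.exists_mem_ne_zero_of_ne_bot hk
  have hco : ∀ e : S, coeff e.1 (Λ w) = w e := fun e => by
    rw [hΛ, coeff_sum, Finset.sum_eq_single e]
    · simp
    · intro b _ hb
      rw [coeff_monomial, if_neg fun h => hb (Subtype.ext h)]
    · simp
  refine ⟨Λ w, fun h0 => hw0 (funext fun e => by rw [← hco, h0]; simp), ?_, fun p u v huv => ?_⟩
  · intro e he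
    by_contra hne
    apply mem_support_iff.1 he
    rw [hΛ, coeff_sum]
    exact Finset.sum_eq_zero fun b _ => by
      rw [coeff_monomial, if_neg fun h : b.1 = e => hne (h ▸ b.2)]
  · have := congrFun (LinearMap.mem_ker.1 hw) ⟨p, ⟨u + v, huv⟩, ⟨u, by simp⟩⟩
    simpa [Ψ] using this

end Pool.Agent.MP_d0dfcd_ag.NB

end MrgPart0

-- ======== part 1: formerly Pool.Agent.MP_d0dfcd_ag.h44.Toric
section MrgPart1

/-! Bezout's inequality and the genus bound on the product of two lines, with the four corners. -/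

namespace Pool.Agent.MP_d0dfcd_ag.NB

open Polynomial

variable {k : Type*}

theorem sum_tri (n : ℕ) : ∀ c, c ≤ n → 2 * ∑ j ∈ Finset.range n, (c - j) = c * (c + 1) := by
  induction n with
  | zero => intro c hc; simp [Nat.le_zero.1 hc]
  | succ n ih =>
    intro c hc
    rw [Finset.sum_range_succ']
    cases c with
    | zero => simp
    | succ c =>
      have := ih c (by omega)
      simp only [Nat.add_sub_add_right, Nat.sub_zero]
      linarith

theorem sum_tri' (n d : ℕ) (h : d ≤ n) :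
    2 * ∑ j ∈ Finset.range n, (d - (n - j)) + d = d * d := by
  have h1 : ∑ j ∈ Finset.range n, (d - (n - j)) = ∑ j ∈ Finset.range n, (d - 1 - j) := by
    rw [← Finset.sum_range_reflect (fun j => d - 1 - j) n]
    exact Finset.sum_congr rfl fun j hj => by rw [Finset.mem_range] at hj; omega
  rw [h1, sum_tri n (d - 1) (by omega)]
  cases d with
  | zero => simp
  | succ d => simp only [Nat.add_sub_cancel]; ring

theorem wsum {B B' c d c' d' : ℕ} (h : c + d ≤ B) (h' : c' + d' ≤ B') :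
    ∑ i ∈ Finset.range (B + B'), ((c + c' - i) + (d + d' - (B + B' - i))) =
      ∑ j ∈ Finset.range B, ((c - j) + (d - (B - j))) +
        ∑ j ∈ Finset.range B', ((c' - j) + (d' - (B' - j))) + (c * c' + d * d') := by
  simp only [Finset.sum_add_distrib]
  have a1 := sum_tri B c (by omega)
  have a2 := sum_tri B' c' (by omega)
  have a3 := sum_tri (B + B') (c + c') (by omega)
  have b1 := sum_tri' B d (by omega)
  have b2 := sum_tri' B' d' (by omega)
  have b3 := sum_tri' (B + B') (d + d') (by omega)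
  nlinarith

theorem low_resultant [Field k] (f g : k[X][X]) {B B' c d c' d' : ℕ} (h : c + d ≤ B)
    (h' : c' + d' ≤ B') (hf : ∀ l, l ≤ B → X ^ ((c - l) + (d - (B - l))) ∣ f.coeff l)
    (hg : ∀ l, l ≤ B' → X ^ ((c' - l) + (d' - (B' - l))) ∣ g.coeff l) :
    X ^ (c * c' + d * d') ∣ resultant f g B B' := by
  have h1 := pow_dvd_det (sylvester f g B B') (X : k[X])
    (fun i => (c + c' - i) + (d + d' - (B + B' - i)))
    (fun j => j.addCases (fun j1 => (c - j1) + (d - (B - j1)))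
      (fun j2 => (c' - j2) + (d' - (B' - j2)))) (by
      intro i j
      induction j using Fin.addCases with
      | left j =>
        simp only [sylvester, Matrix.of_apply, Fin.addCases_left]
        split_ifs with hij
        · have h1 := hij.1
          have h2 := hij.2
          refine dvd_trans ?_ (mul_dvd_mul (hg _ (by omega)) dvd_rfl)
          rw [← pow_add]
          apply pow_dvd_pow
          have := j.2
          omega
        · simp
      | right j =>
        simp only [sylvester, Matrix.of_apply, Fin.addCases_right]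
        split_ifs with hij
        · have h1 := hij.1
          have h2 := hij.2
          refine dvd_trans ?_ (mul_dvd_mul (hf _ (by omega)) dvd_rfl)
          rw [← pow_add]
          apply pow_dvd_pow
          have := j.2
          omega
        · simp)
  rw [Fin.sum_univ_eq_sum_range (fun i => (c + c' - i) + (d + d' - (B + B' - i))),
    Fin.sum_univ_add] at h1
  simp only [Fin.addCases_left, Fin.addCases_right] at h1
  rw [Fin.sum_univ_eq_sum_range (fun j => (c - j) + (d - (B - j))),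
    Fin.sum_univ_eq_sum_range (fun j => (c' - j) + (d' - (B' - j))), wsum h h', pow_add,
    mul_comm] at h1
  exact (mul_dvd_mul_iff_right (pow_ne_zero _ X_ne_zero)).1 h1

theorem high_resultant [Field k] (f g : k[X][X]) {A A' B B' c d c' d' : ℕ} (h : c + d ≤ B)
    (h' : c' + d' ≤ B')
    (hf : ∀ l, l ≤ B → f.coeff l ≠ 0 → (f.coeff l).natDegree + ((c - l) + (d - (B - l))) ≤ A)
    (hg : ∀ l, l ≤ B' → g.coeff l ≠ 0 →
      (g.coeff l).natDegree + ((c' - l) + (d' - (B' - l))) ≤ A')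
    (h0 : resultant f g B B' ≠ 0) :
    (resultant f g B B').natDegree + (c * c' + d * d') ≤ A * B' + A' * B := by
  have key : ∀ i j, sylvester f g B B' i j ≠ 0 → (sylvester f g B B' i j).natDegree +
      ((c + c' - i) + (d + d' - (B + B' - i))) ≤
      j.addCases (fun j1 => A' + ((c - j1) + (d - (B - j1))))
        (fun j2 => A + ((c' - j2) + (d' - (B' - j2)))) := by
    intro i j
    induction j using Fin.addCases with
    | left j =>
      simp only [sylvester, Matrix.of_apply, Fin.addCases_left]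
      split_ifs with hij
      · intro hne
        have h1 := hij.1
        have h2 := hij.2
        have := hg _ (by omega) hne
        have := j.2
        omega
      · simp
    | right j =>
      simp only [sylvester, Matrix.of_apply, Fin.addCases_right]
      split_ifs with hij
      · intro hne
        have h1 := hij.1
        have h2 := hij.2
        have := hf _ (by omega) hne
        have := j.2
        omega
      · simp
  have h1 := natDegree_det_le (sylvester f g B B') _ _ key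
  have h2 : ∑ i : Fin (B + B'), ((c + c' - i) + (d + d' - (B + B' - i))) ≤
      ∑ j : Fin (B + B'), (j.addCases (fun j1 => A' + ((c - j1) + (d - (B - j1))))
        (fun j2 => A + ((c' - j2) + (d' - (B' - j2)))) : ℕ) := by
    unfold resultant at h0
    rw [Matrix.det_apply'] at h0
    obtain ⟨τ, -, hτ⟩ := Finset.exists_ne_zero_of_sum_ne_zero h0
    have h3 := Finset.prod_ne_zero_iff.1 (right_ne_zero_of_mul hτ)
    rw [← Equiv.sum_comp τ]
    exact Finset.sum_le_sum fun j hj => le_trans (Nat.le_add_left _ _) (key _ _ (h3 j hj))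
  rw [Fin.sum_univ_eq_sum_range (fun i => (c + c' - i) + (d + d' - (B + B' - i))),
    Fin.sum_univ_add] at h1 h2
  simp only [Fin.addCases_left, Fin.addCases_right] at h1 h2
  rw [Fin.sum_univ_eq_sum_range (fun j => A' + ((c - j) + (d - (B - j)))),
    Fin.sum_univ_eq_sum_range (fun j => A + ((c' - j) + (d' - (B' - j)))), wsum h h',
    Finset.sum_add_distrib (f := fun _ => A'), Finset.sum_add_distrib (f := fun _ => A)] at h1 h2
  simp only [Finset.sum_const, Finset.card_range, smul_eq_mul] at h1 h2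
  unfold resultant
  rw [mul_comm A B', mul_comm A' B]
  omega

/-- A polynomial in two variables as a polynomial in the second variable. -/
noncomputable abbrev biv [CommRing k] : P2 k ≃ₐ[k] k[X][X] := (Bivariate.equivMvPolynomial k).symm

/-- The exponent `(i, l)`. -/
noncomputable def ex (i l : ℕ) : Fin 2 →₀ ℕ := Finsupp.single 0 i + Finsupp.single 1 l

@[simp] theorem ex_zero (i l : ℕ) : ex i l 0 = i := by simp [ex]

@[simp] theorem ex_one (i l : ℕ) : ex i l 1 = l := by simp [ex]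

theorem ex_eq (e : Fin 2 →₀ ℕ) : ex (e 0) (e 1) = e := by
  ext i
  fin_cases i <;> simp

theorem coeff_biv [CommRing k] (f : P2 k) (i l : ℕ) :
    ((biv f).coeff l).coeff i = MvPolynomial.coeff (ex i l) f := by
  classical
  induction f using MvPolynomial.induction_on' with
  | monomial e a =>
    have h2 : biv (MvPolynomial.monomial e a) = monomial (e 1) (monomial (e 0) a) := by
      rw [MvPolynomial.monomial_eq, Finsupp.prod_fintype _ _ (by simp), Fin.prod_univ_two]
      simp [← C_mul_X_pow_eq_monomial, mul_assoc]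
    rw [h2, MvPolynomial.coeff_monomial, coeff_monomial]
    by_cases h : e = ex i l
    · simp [h]
    · rw [if_neg h]
      split_ifs with h1
      · rw [coeff_monomial, if_neg]
        intro h0
        exact h (by rw [← h0, ← h1, ex_eq])
      · simp
  | add p q hp hq => simp only [map_add, coeff_add, MvPolynomial.coeff_add, hp, hq]

theorem aeval_biv [CommRing k] (x y : k) (f : P2 k) :
    MvPolynomial.aeval ![x, y] f = ((biv f).map (evalRingHom x)).eval y := by
  induction f using MvPolynomial.induction_on with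
  | C a => simp
  | add p q hp hq => simp only [map_add, Polynomial.map_add, eval_add, hp, hq]
  | mul_X p i hp =>
    simp only [map_mul, Polynomial.map_mul, eval_mul, hp]
    congr 1
    fin_cases i <;> simp

/-- Bidegree at most `(A, B)` and orders `c1, …, c4` at the four corners. -/
def Oct [CommRing k] (A B c1 c2 c3 c4 : ℕ) (f : P2 k) : Prop :=
  c1 + c2 ≤ B ∧ c3 + c4 ≤ B ∧ ∀ e ∈ f.support, e 0 ≤ A ∧ e 1 ≤ B ∧ c1 ≤ e 0 + e 1 ∧
    c2 + e 1 ≤ e 0 + B ∧ c3 + e 0 ≤ A + e 1 ∧ c4 + e 0 + e 1 ≤ A + B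

theorem Oct.ex [CommRing k] {A B c1 c2 c3 c4 : ℕ} {f : P2 k} (h : Oct A B c1 c2 c3 c4 f)
    {i l : ℕ} (hil : ((biv f).coeff l).coeff i ≠ 0) : i ≤ A ∧ l ≤ B ∧ c1 ≤ i + l ∧
    c2 + l ≤ i + B ∧ c3 + i ≤ A + l ∧ c4 + i + l ≤ A + B := by
  rw [coeff_biv] at hil
  simpa using h.2.2 _ (MvPolynomial.mem_support_iff.2 hil)

theorem Oct.natDegree_le [CommRing k] {A B c1 c2 c3 c4 : ℕ} {f : P2 k}
    (h : Oct A B c1 c2 c3 c4 f) : (biv f).natDegree ≤ B := by
  rw [natDegree_le_iff_coeff_eq_zero]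
  intro l hl
  ext i
  by_contra hne
  have := (h.ex hne).2.1
  omega

theorem le_natDegree_biv [CommRing k] {f : P2 k} {e : Fin 2 →₀ ℕ} (he : e ∈ f.support) :
    e 1 ≤ (biv f).natDegree := by
  apply le_natDegree_of_ne_zero
  intro h
  have := coeff_biv f (e 0) (e 1)
  rw [h, ex_eq] at this
  exact MvPolynomial.mem_support_iff.1 he this.symm

theorem Oct.low [Field k] {A B c1 c2 c3 c4 : ℕ} {f : P2 k} (h : Oct A B c1 c2 c3 c4 f) (l : ℕ)
    (hl : l ≤ B) : X ^ ((c1 - l) + (c2 - (B - l))) ∣ (biv f).coeff l := by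
  rw [X_pow_dvd_iff]
  intro i hi
  by_contra hne
  have := h.ex hne
  have := h.1
  omega

theorem Oct.high [Field k] {A B c1 c2 c3 c4 : ℕ} {f : P2 k} (h : Oct A B c1 c2 c3 c4 f) (l : ℕ)
    (hl : l ≤ B) (h0 : (biv f).coeff l ≠ 0) :
    ((biv f).coeff l).natDegree + ((c3 - l) + (c4 - (B - l))) ≤ A := by
  have := h.ex (leadingCoeff_ne_zero.2 h0)
  have := h.2.1
  omega

theorem sum_le_natDegree [Field k] {σ : Type*} [Fintype σ] (a : σ → k)
    (ha : Function.Injective a) (m : σ → ℕ) {R : k[X]} (hR : R ≠ 0)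
    (h : ∀ s, (X - C (a s)) ^ m s ∣ R) : ∏ s, (X - C (a s)) ^ m s ∣ R ∧ ∑ s, m s ≤ R.natDegree := by
  classical
  have h1 : ∏ s, (X - C (a s)) ^ m s ∣ R :=
    Fintype.prod_dvd_of_coprime (fun s t hst => (pairwise_coprime_X_sub_C ha hst).pow) h
  refine ⟨h1, ?_⟩
  have h2 := natDegree_le_of_dvd h1 hR
  rw [natDegree_prod_of_monic _ _ (fun s _ => (monic_X_sub_C _).pow _)] at h2
  simpa only [(monic_X_sub_C _).natDegree_pow, natDegree_X_sub_C, mul_one] using h2

/-- Bezout's inequality with the corners. -/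
theorem toric_bezout [Field k] {σ : Type*} [Fintype σ] (a b : σ → k)
    (ha : Function.Injective a) (ha0 : ∀ s, a s ≠ 0) {f g : P2 k} (hf : Prime f) (hfg : ¬ f ∣ g)
    {A B c1 c2 c3 c4 A' B' d1 d2 d3 d4 : ℕ} (hF : Oct A B c1 c2 c3 c4 f)
    (hB : ∃ e ∈ f.support, e 1 = B) (hG : Oct A' B' d1 d2 d3 d4 g) (m n : σ → ℕ)
    (hm : ∀ s, f ∈ ptIdeal (a s) (b s) ^ m s) (hn : ∀ s, g ∈ ptIdeal (a s) (b s) ^ n s) :
    ∑ s, m s * n s + (c1 * d1 + c2 * d2) + (c3 * d3 + c4 * d4) ≤ A * B' + A' * B := by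
  classical
  have hf' : Prime (biv f) := (MulEquiv.prime_iff (biv (k := k)).toMulEquiv).2 hf
  have hfg' : ¬ biv f ∣ biv g := fun h => hfg ((map_dvd_iff (biv (k := k)).toMulEquiv).1 h)
  have hR0 := resultant_ne_zero_of_prime hf' hfg'
  have hdeg : (biv f).natDegree = B := by
    obtain ⟨e, he, rfl⟩ := hB
    exact le_antisymm hF.natDegree_le (le_natDegree_biv he)
  obtain ⟨u, hu⟩ := Nat.exists_eq_add_of_le hG.natDegree_le
  have hR : resultant (biv f) (biv g) B B' =
      (biv f).leadingCoeff ^ u * resultant (biv f) (biv g) := by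
    rw [hu, resultant_add_right_deg _ _ _ _ _ le_rfl, leadingCoeff, hdeg]
  have hR1 : resultant (biv f) (biv g) B B' ≠ 0 := by
    rw [hR]
    exact mul_ne_zero (pow_ne_zero _ (leadingCoeff_ne_zero.2 hf'.ne_zero)) hR0
  have hdvd : ∀ s, (X - C (a s)) ^ (m s * n s) ∣ resultant (biv f) (biv g) := by
    intro s
    have hP : (X - C (a s) : k[X]) ≠ 0 := X_sub_C_ne_zero _
    have hm' := (van_iff_mem _ _ _ _).2 (hm s)
    have hn' := (van_iff_mem _ _ _ _).2 (hn s)
    rw [← resultant_taylor (biv f) (biv g) (C (b s))]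
    refine pow_dvd_resultant hP _ _ (hm'.coeff_dvd hP) (hn'.coeff_dvd hP) ?_
    rw [natDegree_taylor, natDegree_taylor]
    by_cases h1 : C (X - C (a s)) ∣ biv f
    · right
      refine hn'.le_natDegree hP fun h2 => hfg' ?_
      have hp : Prime (C (X - C (a s)) : k[X][X]) := prime_C_iff.2 (prime_X_sub_C _)
      exact ((hp.irreducible.associated_of_dvd hf'.irreducible h1).symm.dvd).trans h2
    · left
      exact hm'.le_natDegree hP h1
  have hlow := low_resultant (biv f) (biv g) hF.1 hG.1 hF.low hG.low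
  have hhigh := high_resultant (biv f) (biv g) hF.2.1 hG.2.1 hF.high hG.high hR1
  have := (sum_le_natDegree (σ := Option σ) (fun s => s.elim 0 a) (by
      rintro (_ | s) (_ | t) h
      · rfl
      · exact absurd h.symm (ha0 t)
      · exact absurd h (ha0 s)
      · rw [ha h])
    (fun s => s.elim (c1 * d1 + c2 * d2) fun s => m s * n s) hR1 (by
      rintro (_ | s)
      · simpa using hlow
      · rw [hR]
        exact (hdvd s).mul_left _)).2
  rw [Fintype.sum_option] at this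
  simp only [Option.elim] at this
  omega

theorem flat_bound [Field k] {σ : Type*} [Fintype σ] (a b : σ → k) (ha : Function.Injective a)
    {f : P2 k} (hf : f ≠ 0) {A c1 c2 c3 c4 : ℕ} (hF : Oct A 0 c1 c2 c3 c4 f) (m : σ → ℕ)
    (hm : ∀ s, f ∈ ptIdeal (a s) (b s) ^ m s) : ∑ s, m s ≤ A := by
  have h1 := eq_C_of_natDegree_le_zero hF.natDegree_le
  have h2 : (biv f).coeff 0 ≠ 0 := fun h => hf ((biv (k := k)).injective (by rw [h1, h]; simp))
  have h3 := hF.high 0 le_rfl h2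
  have := (sum_le_natDegree a ha m h2 fun s => by
    have := ((van_iff_mem _ _ _ _).2 (hm s)).coeff_dvd (X_sub_C_ne_zero _) 0
    rw [show (Bivariate.equivMvPolynomial k).symm f = biv f from rfl, h1] at this
    simpa using this).2
  omega

end Pool.Agent.MP_d0dfcd_ag.NB

end MrgPart1

-- ======== part 2: formerly Pool.Agent.MP_d0dfcd_ag.h44.Genus
section MrgPart2

/-! The genus bound, and the light cone inequality. -/

namespace Pool.Agent.MP_d0dfcd_ag.NB

open Polynomial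

variable {k : Type*}

theorem ex_injective : Function.Injective fun p : ℕ × ℕ => ex p.1 p.2 := by
  rintro ⟨i, l⟩ ⟨i', l'⟩ h
  have h0 := DFunLike.congr_fun h 0
  have h1 := DFunLike.congr_fun h 1
  simp only [ex_zero, ex_one] at h0 h1
  rw [h0, h1]

theorem mem_pow_of_coeff [CommRing k] {a b : k} {n : ℕ} {g : P2 k}
    (h : ∀ u v, u + v < n → MvPolynomial.coeff (ex u v) (shift a b g) = 0) :
    g ∈ ptIdeal a b ^ n := by
  rw [mem_pow_iff]
  intro e he
  by_contra hlt
  have := h (e 0) (e 1) (by unfold wt at hlt; omega)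
  rw [ex_eq] at this
  exact MvPolynomial.mem_support_iff.1 he this

theorem exists_points [Field k] [IsAlgClosed k] {f : P2 k} (hf : 1 ≤ (biv f).natDegree)
    (T : Finset k) (r : ℕ) : ∃ x y : Fin r → k, Function.Injective x ∧ (∀ j, x j ∉ T) ∧
      ∀ j, f ∈ ptIdeal (x j) (y j) := by
  classical
  have h0 : (biv f).leadingCoeff ≠ 0 := by
    rw [leadingCoeff_ne_zero]
    intro h
    rw [h] at hf
    simp at hf
  let U : Finset k := T ∪ (biv f).leadingCoeff.roots.toFinset
  let e := Set.Infinite.natEmbedding _ U.finite_toSet.infinite_compl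
  have he : ∀ n, (e n).1 ∉ T ∧ (biv f).leadingCoeff.eval (e n).1 ≠ 0 := fun n => by
    have := (e n).2
    simp only [U, Set.mem_compl_iff, Finset.coe_union, Set.mem_union, Finset.mem_coe,
      Multiset.mem_toFinset, mem_roots h0, not_or] at this
    exact this
  have hy : ∀ n, ∃ y, ((biv f).map (evalRingHom (e n).1)).eval y = 0 := fun n => by
    apply IsAlgClosed.exists_root
    rw [degree_map_eq_of_leadingCoeff_ne_zero _ (he n).2]
    exact (natDegree_pos_iff_degree_pos.1 hf).ne'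
  choose y hy using hy
  refine ⟨fun j => (e j).1, fun j => y j, fun i j h => Fin.ext (e.injective (Subtype.ext h)),
    fun j => (he j).1, fun j => mem_of_aeval ?_⟩
  rw [aeval_biv, hy]

/-- The genus bound. -/
theorem adjunction [Field k] [IsAlgClosed k] {σ : Type*} [Fintype σ] (a b : σ → k)
    (ha : Function.Injective a) (ha0 : ∀ s, a s ≠ 0) {f : P2 k} (hf : Prime f)
    {A B c1 c2 c3 c4 : ℕ} (hF : Oct A B c1 c2 c3 c4 f) (hB : ∃ e ∈ f.support, e 1 = B)
    (hB1 : 1 ≤ B) (m : σ → ℕ) (hm : ∀ s, f ∈ ptIdeal (a s) (b s) ^ m s) :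
    ∑ s, m s * (m s - 1) + (c1 * (c1 - 1) + c2 * (c2 - 1)) + (c3 * (c3 - 1) + c4 * (c4 - 1)) +
      2 * A + 2 * B ≤ 2 * A * B + 2 := by
  classical
  set N := ∑ s, m s * (m s - 1) + (c1 * (c1 - 1) + c2 * (c2 - 1)) +
    (c3 * (c3 - 1) + c4 * (c4 - 1)) with hN
  have hdeg : (biv f).natDegree = B := by
    obtain ⟨e, he, rfl⟩ := hB
    exact le_antisymm hF.natDegree_le (le_natDegree_biv he)
  obtain ⟨B', rfl⟩ : ∃ B', B = B' + 1 := ⟨B - 1, by omega⟩
  obtain ⟨r, hr1, hr2⟩ : ∃ r, N + 2 * r < 2 * ((N + 1) * (B' + 1)) ∧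
      2 * ((N + 1) * (B' + 1)) ≤ N + 2 * r + 2 := by
    have : N + 1 ≤ (N + 1) * (B' + 1) := Nat.le_mul_of_pos_right _ (by omega)
    exact ⟨(2 * ((N + 1) * (B' + 1)) - N - 1) / 2, by omega, by omega⟩
  obtain ⟨x, y, hx, hxT, hxy⟩ := exists_points (f := f) (by omega)
    (insert 0 (Finset.univ.image a)) r
  let a' : σ ⊕ Fin r → k := Sum.elim a x
  let b' : σ ⊕ Fin r → k := Sum.elim b y
  let n' : σ ⊕ Fin r → ℕ := Sum.elim (fun s => m s - 1) fun _ => 1
  let S : Finset (Fin 2 →₀ ℕ) :=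
    (Finset.range (N + 1) ×ˢ Finset.range (B' + 1)).image fun p => ex p.1 p.2
  have hS : S.card = (N + 1) * (B' + 1) := by
    rw [Finset.card_image_of_injective _ ex_injective]
    simp
  have hpred : ∀ c : ℕ, (c - 1) * (c - 1 + 1) = c * (c - 1) := fun c => by
    cases c with
    | zero => simp
    | succ c => simp [mul_comm]
  obtain ⟨g, hg0, hgS, hg⟩ := exists_poly (K := k) (P := (σ ⊕ Fin r) ⊕ Fin 4)
    (Sum.elim n' ![c1 - 1, c2 - 1, c3 - 1, c4 - 1])
    (Sum.elim (fun s u v => MvPolynomial.lcoeff k (ex u v) ∘ₗ (shift (a' s) (b' s)).toLinearMap)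
      ![fun u v => MvPolynomial.lcoeff k (ex u v), fun u v => MvPolynomial.lcoeff k (ex u (B' - v)),
        fun u v => MvPolynomial.lcoeff k (ex (N - u) v),
        fun u v => MvPolynomial.lcoeff k (ex (N - u) (B' - v))]) S (by
      rw [hS]
      simp only [Fintype.sum_sum_type, Sum.elim_inl, Sum.elim_inr, n', Fin.sum_univ_four,
        Matrix.cons_val, hpred, Finset.sum_const, Finset.card_univ, Fintype.card_fin, smul_eq_mul]
      omega)
  have hG : Oct N B' (c1 - 1) (c2 - 1) (c3 - 1) (c4 - 1) g := by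
    refine ⟨by have := hF.1; omega, by have := hF.2.1; omega, fun e he => ?_⟩
    have hne := MvPolynomial.mem_support_iff.1 he
    obtain ⟨p, hp, hpe⟩ := Finset.mem_image.1 (hgS he)
    rw [Finset.mem_product, Finset.mem_range, Finset.mem_range] at hp
    have e0 : e 0 ≤ N := by rw [← hpe, ex_zero]; omega
    have e1 : e 1 ≤ B' := by rw [← hpe, ex_one]; omega
    refine ⟨e0, e1, ?_, ?_, ?_, ?_⟩
    · by_contra hlt
      have := hg (Sum.inr 0) (e 0) (e 1) (by simp; omega)
      exact hne (by simpa [ex_eq] using this)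
    · by_contra hlt
      have := hg (Sum.inr 1) (e 0) (B' - e 1) (by simp; omega)
      exact hne (by simpa [Nat.sub_sub_self e1, ex_eq] using this)
    · by_contra hlt
      have := hg (Sum.inr 2) (N - e 0) (e 1) (by simp; omega)
      exact hne (by simpa [Nat.sub_sub_self e0, ex_eq] using this)
    · by_contra hlt
      have := hg (Sum.inr 3) (N - e 0) (B' - e 1) (by simp; omega)
      exact hne (by simpa [Nat.sub_sub_self e0, Nat.sub_sub_self e1, ex_eq] using this)
  have hfg : ¬ f ∣ g := fun h => by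
    have h1 := natDegree_le_of_dvd (map_dvd (biv (k := k)) h)
      (fun h0 => hg0 ((biv (k := k)).injective (by rw [h0, map_zero])))
    have := hG.natDegree_le
    omega
  have hT : ∀ j, x j ≠ 0 ∧ ∀ s, a s ≠ x j := fun j => by
    simpa using hxT j
  have := toric_bezout a' b' (by
      rintro (s | s) (t | t) h
      · rw [ha h]
      · exact absurd h ((hT t).2 s)
      · exact absurd h.symm ((hT s).2 t)
      · rw [hx h])
    (by
      rintro (s | s)
      · exact ha0 s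
      · exact (hT s).1) hf hfg hF hB hG (Sum.elim m fun _ => 1) n'
    (by
      rintro (s | s)
      · exact hm s
      · simpa [a', b'] using hxy s)
    (fun s => mem_pow_of_coeff fun u v huv => hg (Sum.inl s) u v huv)
  simp only [Fintype.sum_sum_type, Sum.elim_inl, Sum.elim_inr, n', Finset.sum_const,
    Finset.card_univ, Fintype.card_fin, smul_eq_mul, mul_one, ← add_assoc] at this
  have e1 : 2 * ((N + 1) * (B' + 1)) = 2 * (N * (B' + 1)) + 2 * B' + 2 := by ring
  have e2 : 2 * A * (B' + 1) = 2 * (A * B') + 2 * A := by ring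
  omega

/-- The light cone inequality. -/
theorem cone {ι : Type*} [Fintype ι] {A B A' B' : ℝ} (c c' : ι → ℝ) (h0 : 0 ≤ A + B)
    (h0' : 0 ≤ A' + B') (h : ∑ i, c i ^ 2 ≤ 2 * A * B) (h' : ∑ i, c' i ^ 2 ≤ 2 * A' * B') :
    ∑ i, c i * c' i ≤ A * B' + B * A' := by
  have s1 : 0 ≤ ∑ i, c i ^ 2 := Finset.sum_nonneg fun i _ => sq_nonneg _
  have s2 : 0 ≤ ∑ i, c' i ^ 2 := Finset.sum_nonneg fun i _ => sq_nonneg _
  have hA : 0 ≤ A := by nlinarith
  have hB : 0 ≤ B := by nlinarith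
  have hA' : 0 ≤ A' := by nlinarith
  have hB' : 0 ≤ B' := by nlinarith
  have h1 := Finset.sum_mul_sq_le_sq_mul_sq Finset.univ c c'
  have h2 := mul_le_mul h h' s2 (s1.trans h)
  refine le_trans (le_abs_self _) (abs_le_of_sq_le_sq' ?_ (by positivity)).2
  rw [sq_abs]
  nlinarith [sq_nonneg (A * B' - B * A')]

end Pool.Agent.MP_d0dfcd_ag.NB

end MrgPart2

-- ======== part 3: formerly Pool.Agent.MP_d0dfcd_ag.h44.Curve
section MrgPart3

/-! Restriction to the nodal anticanonical curve of the quotient surface. -/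

namespace Pool.Agent.MP_d0dfcd_ag.NB

open Polynomial

variable {k : Type*} [Field k]

/-- Five points `(x i, y i)` on the curve `y (l x + 1) = x + l`, close to `(1, 1)`. -/
structure Conf (k : Type*) [Field k] where
  /-- the parameter of the curve -/
  l : k
  /-- first coordinates -/
  x : Fin 5 → k
  /-- second coordinates -/
  y : Fin 5 → k
  hy : ∀ i, y i * (l * x i + 1) = x i + l
  two : (2 : k) ≠ 0
  l0 : l ≠ 0
  l1 : 1 + l ≠ 0
  l2 : 1 - l ≠ 0
  x0 : ∀ i, x i ≠ 0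
  y0 : ∀ i, y i ≠ 0
  xy : ∀ i, x i ≠ y i
  xinj : Function.Injective x
  yinj : Function.Injective y
  sinj : Function.Injective fun i => x i * y i
  nx : ∀ i j, x i + x j ≠ 0
  ny : ∀ i j, y i + y j ≠ 0
  indep : ∀ (n : Fin 5 → ℕ) (a b c d : ℕ) (ε : k), ε ^ 2 = 1 →
    (1 + l) ^ a * (1 - l) ^ b * ∏ i, (1 - x i) ^ n i =
      ε * ((1 + l) ^ c * (1 - l) ^ d * ∏ i, (1 + x i) ^ n i) → ∀ i, n i = 0

theorem Conf.b0 (Q : Conf k) (i : Fin 5) : Q.l * Q.x i + 1 ≠ 0 := fun h => by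
  have h1 := Q.hy i
  rw [h, mul_zero] at h1
  apply mul_ne_zero Q.l1 Q.l2
  linear_combination h + Q.l * h1

theorem Conf.a0 (Q : Conf k) (i : Fin 5) : Q.x i + Q.l ≠ 0 := by
  rw [← Q.hy i]
  exact mul_ne_zero (Q.y0 i) (Q.b0 i)

/-- The restriction of `f` to the curve, with denominators cleared. -/
noncomputable def pol (l : k) (A B c1 c2 c3 : ℕ) (f : P2 k) : k[X] :=
  ∑ e ∈ f.support, C (MvPolynomial.coeff e f) * (X ^ (e 0 + e 1 - c1) *
    (X + C l) ^ (e 0 + B - e 1 - c2) * (C l * X + 1) ^ (A + e 1 - e 0 - c3))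

theorem pol_spec {R : Type*} [CommRing R] [Algebra k R] (π : k[X] →ₐ[k] R) (l : k) (s t : R)
    (hs : s * π (C l * X + 1) = π X * π (X + C l)) (ht : t * π (X + C l) = π X * π (C l * X + 1))
    {A B c1 c2 c3 c4 : ℕ} {f : P2 k} (hF : Oct A B c1 c2 c3 c4 f) :
    π (X + C l) ^ B * π (C l * X + 1) ^ A * MvPolynomial.aeval ![s, t] f =
      π X ^ c1 * π (X + C l) ^ c2 * π (C l * X + 1) ^ c3 * π (pol l A B c1 c2 c3 f) := by
  rw [aeval_two, pol, map_sum, Finset.mul_sum, Finset.mul_sum]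
  refine Finset.sum_congr rfl fun e he => ?_
  obtain ⟨h1, h2, h3, h4, h5, -⟩ := hF.2.2 e he
  rw [map_mul, map_mul, map_mul, map_pow, map_pow, map_pow, ← algebraMap_eq, AlgHom.commutes]
  generalize π (X + C l) = α at *
  generalize π (C l * X + 1) = β at *
  generalize π X = ξ at *
  obtain ⟨u, rfl⟩ := Nat.exists_eq_add_of_le h1
  obtain ⟨v, rfl⟩ := Nat.exists_eq_add_of_le h2
  obtain ⟨w1, hw1⟩ := Nat.exists_eq_add_of_le h3
  obtain ⟨w2, hw2⟩ : ∃ w, e 0 + v = c2 + w := ⟨e 0 + v - c2, by omega⟩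
  obtain ⟨w3, hw3⟩ : ∃ w, e 1 + u = c3 + w := ⟨e 1 + u - c3, by omega⟩
  rw [show e 0 + e 1 - c1 = w1 by omega, show e 0 + (e 1 + v) - e 1 - c2 = w2 by omega,
    show e 0 + u + e 1 - e 0 - c3 = w3 by omega]
  calc _ = algebraMap k R (MvPolynomial.coeff e f) * ((s * β) ^ e 0 * (t * α) ^ e 1 * α ^ v * β ^ u) := by
        ring
    _ = algebraMap k R (MvPolynomial.coeff e f) *
        (ξ ^ (e 0 + e 1) * α ^ (e 0 + v) * β ^ (e 1 + u)) := by
        rw [hs, ht]
        ring
    _ = _ := by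
        rw [hw1, hw2, hw3]
        ring

theorem natDegree_pol (l : k) {A B c1 c2 c3 c4 : ℕ} {f : P2 k} (hF : Oct A B c1 c2 c3 c4 f) :
    (pol l A B c1 c2 c3 f).natDegree ≤ 2 * A + 2 * B - (c1 + c2 + c3 + c4) := by
  refine natDegree_sum_le_of_forall_le _ _ fun e he => ?_
  obtain ⟨h1, h2, h3, h4, h5, h6⟩ := hF.2.2 e he
  refine (natDegree_C_mul_le _ _).trans ?_
  have a1 : (X ^ (e 0 + e 1 - c1) : k[X]).natDegree ≤ e 0 + e 1 - c1 := natDegree_X_pow_le _
  have a2 : ((X + C l) ^ (e 0 + B - e 1 - c2)).natDegree ≤ (e 0 + B - e 1 - c2) * 1 :=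
    natDegree_pow_le_of_le _ (natDegree_X_add_C l).le
  have a3 : ((C l * X + 1) ^ (A + e 1 - e 0 - c3)).natDegree ≤ (A + e 1 - e 0 - c3) * 1 :=
    natDegree_pow_le_of_le _ (by rw [← C_1]; exact natDegree_linear_le)
  have := natDegree_mul_le (p := (X ^ (e 0 + e 1 - c1) * (X + C l) ^ (e 0 + B - e 1 - c2) : k[X]))
    (q := (C l * X + 1) ^ (A + e 1 - e 0 - c3))
  have := natDegree_mul_le (p := (X ^ (e 0 + e 1 - c1) : k[X]))
    (q := (X + C l) ^ (e 0 + B - e 1 - c2))
  omega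

theorem unit_mod {a : k} {n : ℕ} {p : k[X]} (h : p.eval a ≠ 0) :
    IsUnit (Ideal.Quotient.mkₐ k (Ideal.span {(X - C a) ^ n}) p) := by
  have h1 : IsCoprime (X - C a) p :=
    (irreducible_X_sub_C a).coprime_iff_not_dvd.2 fun hd => h (dvd_iff_isRoot.1 hd)
  obtain ⟨u, v, huv⟩ := h1.pow_left (m := n)
  have h2 := congrArg (Ideal.Quotient.mkₐ k (Ideal.span {(X - C a) ^ n})) huv
  rw [map_add, map_mul, map_mul, map_one, Ideal.Quotient.mkₐ_eq_mk,
    Ideal.Quotient.eq_zero_iff_mem.2 (Ideal.mem_span_singleton_self _), mul_zero, zero_add] at h2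
  exact IsUnit.of_mul_eq_one_right _ h2

theorem dvd_pol (Q : Conf k) (i : Fin 5) {A B c1 c2 c3 c4 : ℕ} {f : P2 k}
    (hF : Oct A B c1 c2 c3 c4 f) {n : ℕ} (hn : f ∈ ptIdeal (Q.x i * Q.y i) (Q.x i / Q.y i) ^ n) :
    (X - C (Q.x i)) ^ n ∣ pol Q.l A B c1 c2 c3 f := by
  set π := Ideal.Quotient.mkₐ k (Ideal.span {(X - C (Q.x i)) ^ n}) with hπ
  have u1 : IsUnit (π X) := unit_mod (by simpa using Q.x0 i)
  have u2 : IsUnit (π (X + C Q.l)) := unit_mod (by simpa using Q.a0 i)
  have u3 : IsUnit (π (C Q.l * X + 1)) := unit_mod (by simpa using Q.b0 i)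
  obtain ⟨α', hα⟩ := u2.exists_right_inv
  obtain ⟨β', hβ⟩ := u3.exists_right_inv
  have h1 := pol_spec π Q.l (π X * π (X + C Q.l) * β') (π X * π (C Q.l * X + 1) * α')
    (by linear_combination (π X * π (X + C Q.l)) * hβ)
    (by linear_combination (π X * π (C Q.l * X + 1)) * hα) hF
  let J := Ideal.span {π (X - C (Q.x i))}
  have hJ : ∀ p : k[X], p.eval (Q.x i) = 0 → π p ∈ J := fun p hp =>
    Ideal.mem_span_singleton.2 (map_dvd π (dvd_iff_isRoot.2 hp))
  have hC : ∀ a : k, algebraMap k _ a = π (C a) := fun a => (π.commutes a).symm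
  have h2 := map_mem_pow (MvPolynomial.aeval
    ![π X * π (X + C Q.l) * β', π X * π (C Q.l * X + 1) * α'] : P2 k →ₐ[k] _).toRingHom J
    (a := Q.x i * Q.y i) (b := Q.x i / Q.y i) (by
      have := J.mul_mem_left β' (hJ (X * (X + C Q.l) - C (Q.x i * Q.y i) * (C Q.l * X + 1)) (by
        simp only [eval_sub, eval_mul, eval_add, eval_X, eval_C, eval_one]
        linear_combination (-Q.x i) * Q.hy i))
      simp only [AlgHom.toRingHom_eq_coe, RingHom.coe_coe, MvPolynomial.aeval_X,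
        MvPolynomial.aeval_C, Matrix.cons_val_zero, hC]
      convert this using 1
      rw [map_sub π, map_mul π, map_mul π]
      linear_combination (π (C (Q.x i * Q.y i))) * hβ) (by
      have := J.mul_mem_left α' (hJ (X * (C Q.l * X + 1) - C (Q.x i / Q.y i) * (X + C Q.l)) (by
        simp only [eval_sub, eval_mul, eval_add, eval_X, eval_C, eval_one]
        have := Q.y0 i
        field_simp
        linear_combination Q.x i * Q.hy i))
      simp only [AlgHom.toRingHom_eq_coe, RingHom.coe_coe, MvPolynomial.aeval_X,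
        MvPolynomial.aeval_C, Matrix.cons_val_one, Matrix.cons_val_zero, hC]
      convert this using 1
      rw [map_sub π, map_mul π, map_mul π]
      linear_combination (π (C (Q.x i / Q.y i))) * hα) hn
  have h0 : π ((X - C (Q.x i)) ^ n) = 0 :=
    Ideal.Quotient.eq_zero_iff_mem.2 (Ideal.mem_span_singleton_self _)
  rw [Ideal.span_singleton_pow, ← map_pow, h0, Ideal.span_singleton_zero, Ideal.mem_bot,
    AlgHom.toRingHom_eq_coe, RingHom.coe_coe] at h2
  rw [h2, mul_zero] at h1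
  have h3 := (((u1.pow c1).mul (u2.pow c2)).mul (u3.pow c3)).mul_right_eq_zero.1 h1.symm
  exact Ideal.mem_span_singleton.1 (Ideal.Quotient.eq_zero_iff_mem.1 h3)

/-- The inclusion of polynomials in rational functions. -/
noncomputable abbrev rat (k : Type*) [Field k] : k[X] →ₐ[k] RatFunc k :=
  IsScalarTower.toAlgHom k k[X] (RatFunc k)

/-- The second coordinate along the curve. -/
noncomputable def yr (l : k) : RatFunc k := rat k (X + C l) / rat k (C l * X + 1)

theorem rat_ne_zero {p : k[X]} (a : k) (h : p.eval a ≠ 0) : rat k p ≠ 0 := fun h0 => by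
  have : p = 0 := IsFractionRing.injective k[X] (RatFunc k) (by rw [map_zero]; exact h0)
  rw [this] at h
  simp at h

theorem yr_ne_zero (Q : Conf k) : yr Q.l ≠ 0 :=
  div_ne_zero (rat_ne_zero 1 (by simpa using Q.l1)) (rat_ne_zero 0 (by simp))

/-- Evaluation along the curve of the quotient. -/
noncomputable def cev (l : k) : P2 k →ₐ[k] RatFunc k :=
  MvPolynomial.aeval ![rat k X * yr l, rat k X / yr l]

theorem curve_bound (Q : Conf k) {A B c1 c2 c3 c4 : ℕ} {f : P2 k} (hF : Oct A B c1 c2 c3 c4 f)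
    (hev : cev Q.l f ≠ 0) (n : Fin 5 → ℕ)
    (hn : ∀ i, f ∈ ptIdeal (Q.x i * Q.y i) (Q.x i / Q.y i) ^ n i) :
    ∑ i, n i < 2 * A + 2 * B - (c1 + c2 + c3 + c4) ∨ ∀ i, n i = 0 := by
  have hα : rat k (X + C Q.l) ≠ 0 := rat_ne_zero 1 (by simpa using Q.l1)
  have hβ : rat k (C Q.l * X + 1) ≠ 0 := rat_ne_zero 0 (by simp)
  have hP : pol Q.l A B c1 c2 c3 f ≠ 0 := fun h => by
    have h1 := pol_spec (rat k) Q.l (rat k X * yr Q.l) (rat k X / yr Q.l)
      (by rw [yr]; field_simp) (by rw [yr]; field_simp) hF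
    rw [h, map_zero, mul_zero] at h1
    exact mul_ne_zero (mul_ne_zero (pow_ne_zero _ hα) (pow_ne_zero _ hβ)) hev h1
  obtain ⟨⟨w, hw⟩, h2⟩ := sum_le_natDegree Q.x Q.xinj n hP fun i => dvd_pol Q i hF (hn i)
  have h3 := natDegree_pol Q.l hF
  rcases (h2.trans h3).lt_or_eq with h4 | h4
  · exact Or.inl h4
  right
  have hw0 : w ≠ 0 := fun h => hP (by rw [hw, h, mul_zero])
  have hm : (∏ i, (X - C (Q.x i)) ^ n i).Monic :=
    monic_prod_of_monic _ _ fun s _ => (monic_X_sub_C _).pow _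
  have h5 : w.natDegree = 0 := by
    have := congrArg natDegree hw
    rw [natDegree_mul hm.ne_zero hw0,
      natDegree_prod_of_monic _ _ (fun s _ => (monic_X_sub_C _).pow _)] at this
    simp only [(monic_X_sub_C _).natDegree_pow, natDegree_X_sub_C, mul_one] at this
    omega
  obtain ⟨c, rfl⟩ : ∃ c, w = C c := ⟨_, eq_C_of_natDegree_eq_zero h5⟩
  have hc : c ≠ 0 := fun h => hw0 (by rw [h, C_0])
  have e1 := pol_spec (aeval (1 : k)) Q.l 1 1 (by simp [add_comm]) (by simp [add_comm]) hF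
  have e2 := pol_spec (aeval (-1 : k)) Q.l 1 1 (by simp) (by simp) hF
  rw [hw] at e1 e2
  simp only [map_add, map_mul, map_prod, map_pow, map_sub, aeval_X, aeval_C, map_one,
    Algebra.algebraMap_self, RingHom.id_apply] at e1 e2
  have e3 : ∏ i, (-1 - Q.x i) ^ n i = (-1) ^ (∑ i, n i) * ∏ i, (1 + Q.x i) ^ n i := by
    rw [← Finset.prod_pow_eq_pow_sum, ← Finset.prod_mul_distrib]
    exact Finset.prod_congr rfl fun i _ => by rw [← mul_pow]; congr 1; ring
  rw [e3, show -1 + Q.l = -1 * (1 - Q.l) by ring, show Q.l * -1 + 1 = 1 - Q.l by ring,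
    mul_pow, mul_pow] at e2
  rw [show Q.l * 1 + 1 = 1 + Q.l by ring] at e1
  have e4 : ((-1 : k) ^ B) ^ 2 = 1 := by rw [← pow_mul, mul_comm, pow_mul]; simp
  refine Q.indep n (c2 + c3) (B + A) (B + A) (c2 + c3) ((-1) ^ (B + c1 + c2 + ∑ i, n i))
    (by rw [← pow_mul, mul_comm, pow_mul]; simp) (mul_left_cancel₀ hc ?_)
  simp only [pow_add, one_pow, one_mul] at e1 ⊢
  linear_combination (-(1 - Q.l) ^ B * (1 - Q.l) ^ A) * e1 +
    ((-1) ^ B * (1 + Q.l) ^ B * (1 + Q.l) ^ A) * e2 -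
    ((1 - Q.l) ^ B * (1 - Q.l) ^ A * (1 + Q.l) ^ B * (1 + Q.l) ^ A *
      MvPolynomial.aeval ![(1 : k), 1] f) * e4

end Pool.Agent.MP_d0dfcd_ag.NB

end MrgPart3

-- ======== part 4: formerly Pool.Agent.MP_d0dfcd_ag.h44.Down
section MrgPart4

/-! The round nef cone of the quotient surface. -/

namespace Pool.Agent.MP_d0dfcd_ag.NB

open MvPolynomial

variable {k : Type*} [Field k]

/-- The toric part of the intersection number of `f = 0` with the class `(a, b; c1, …, c4)`. -/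
noncomputable def Tor (a b c1 c2 c3 c4 : ℝ) (f : P2 k) : ℝ :=
  -((b - c1 - c2) * wmin 1 0 f + (b - c3 - c4) * wmin (-1) 0 f + (a - c1 - c3) * wmin 0 1 f +
    (a - c2 - c4) * wmin 0 (-1) f + c1 * wmin 1 1 f + c2 * wmin 1 (-1) f + c3 * wmin (-1) 1 f +
    c4 * wmin (-1) (-1) f)

theorem Tor_mul (a b c1 c2 c3 c4 : ℝ) {f g : P2 k} (hf : f ≠ 0) (hg : g ≠ 0) :
    Tor a b c1 c2 c3 c4 (f * g) = Tor a b c1 c2 c3 c4 f + Tor a b c1 c2 c3 c4 g := by
  simp only [Tor, wmin_mul _ _ hf hg]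
  push_cast
  ring

theorem Tor_monomial (a b c1 c2 c3 c4 : ℝ) (e : Fin 2 →₀ ℕ) {r : k} (hr : r ≠ 0) :
    Tor a b c1 c2 c3 c4 (monomial e r) = 0 := by
  simp only [Tor, wmin_monomial _ _ _ hr, wt]
  push_cast
  ring

theorem ord_monomial {a b : k} (ha : a ≠ 0) (hb : b ≠ 0) (e : Fin 2 →₀ ℕ) {r : k} (hr : r ≠ 0) :
    ord a b (monomial e r) = 0 := by
  refine le_antisymm (ord_le_zero ?_) (ord_nonneg _ _ (by simpa using hr))
  rw [aeval_monomial, Finsupp.prod_fintype _ _ (by simp), Fin.prod_univ_two]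
  simp [ha, hb, hr]

theorem exists_oct {f : P2 k} (hf : f ≠ 0) (h0 : wmin 1 0 f = 0) (h1 : wmin 0 1 f = 0) :
    ∃ A B c1 c2 c3 c4 : ℕ, Oct A B c1 c2 c3 c4 f ∧ (∃ e ∈ f.support, e 1 = B) ∧
      c1 + c3 ≤ A ∧ c2 + c4 ≤ A ∧ wmin (-1) 0 f = -A ∧ wmin 0 (-1) f = -B ∧ wmin 1 1 f = c1 ∧
      wmin 1 (-1) f = c2 - B ∧ wmin (-1) 1 f = c3 - A ∧ wmin (-1) (-1) f = c4 - A - B := by
  have w1 := wb_wmin (-1) 0 f
  have w2 := wb_wmin 0 (-1) f
  have w3 := wb_wmin 1 1 f
  have w4 := wb_wmin 1 (-1) f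
  have w5 := wb_wmin (-1) 1 f
  have w6 := wb_wmin (-1) (-1) f
  have key : ∀ p q, ∃ i l : ℕ, p * i + q * l = wmin p q f ∧ (∃ e ∈ f.support, e 1 = l) ∧
      wmin (-1) 0 f ≤ -i ∧ wmin 0 (-1) f ≤ -l ∧ wmin 1 1 f ≤ i + l ∧ wmin 1 (-1) f ≤ i - l ∧
      wmin (-1) 1 f ≤ l - i ∧ wmin (-1) (-1) f ≤ -i - l := fun p q => by
    obtain ⟨e, he, h⟩ := exists_wmin p q hf
    have := w1 e he
    have := w2 e he
    have := w3 e he
    have := w4 e he
    have := w5 e he
    have := w6 e he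
    unfold wt at *
    exact ⟨e 0, e 1, h, ⟨e, he, rfl⟩, by omega, by omega, by omega, by omega, by omega, by omega⟩
  obtain ⟨i1, l1, a1, -, b1⟩ := key (-1) 0
  obtain ⟨i2, l2, a2, ⟨e, he, he1⟩, b2⟩ := key 0 (-1)
  obtain ⟨i3, l3, a3, -, b3⟩ := key 1 1
  obtain ⟨i4, l4, a4, -, b4⟩ := key 1 (-1)
  obtain ⟨i5, l5, a5, -, b5⟩ := key (-1) 1
  obtain ⟨i6, l6, a6, -, b6⟩ := key (-1) (-1)
  obtain ⟨i7, l7, a7, -, b7⟩ := key 1 0
  obtain ⟨i8, l8, a8, -, b8⟩ := key 0 1
  refine ⟨i1, l2, i3 + l3, i4 + l2 - l4, l5 + i1 - i5, i1 + l2 - i6 - l6,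
    ⟨by omega, by omega, fun e he => ?_⟩, ⟨e, he, he1⟩, by omega, by omega, by omega, by omega,
    by omega, by omega, by omega, by omega⟩
  have := w1 e he
  have := w2 e he
  have := w3 e he
  have := w4 e he
  have := w5 e he
  have := w6 e he
  unfold wt at *
  omega

theorem cast_pred (c : ℕ) : ((c * (c - 1) : ℕ) : ℝ) = (c : ℝ) ^ 2 - c := by
  cases c with
  | zero => simp
  | succ c => simp only [Nat.add_sub_cancel]; push_cast; ring

/-- A class orthogonal to the anticanonical curve, in the positive cone. -/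
structure Cls (a b c1 c2 c3 c4 : ℝ) (ν : Fin 5 → ℝ) : Prop where
  pos : 0 ≤ a + b
  sq : c1 ^ 2 + c2 ^ 2 + c3 ^ 2 + c4 ^ 2 + ∑ i, ν i ^ 2 ≤ 2 * a * b
  orth : c1 + c2 + c3 + c4 + ∑ i, ν i = 2 * a + 2 * b

theorem Cls.cone {a b c1 c2 c3 c4 : ℝ} {ν : Fin 5 → ℝ} (h : Cls a b c1 c2 c3 c4 ν)
    {A B d1 d2 d3 d4 κ : ℝ} {n : Fin 5 → ℝ} (h0 : 0 ≤ A + B + 4 * κ)
    (hκ : d1 + d2 + d3 + d4 + ∑ i, n i + κ = 2 * A + 2 * B)
    (h1 : d1 ^ 2 + d2 ^ 2 + d3 ^ 2 + d4 ^ 2 + ∑ i, n i ^ 2 ≤ 2 * A * B + κ ^ 2) :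
    c1 * d1 + c2 * d2 + c3 * d3 + c4 * d4 + ∑ i, ν i * n i ≤ a * B + b * A := by
  have := NB.cone (ι := Fin 4 ⊕ Fin 5) (A := a) (B := b) (A' := A + 2 * κ) (B' := B + 2 * κ)
    (Sum.elim ![c1, c2, c3, c4] ν) (Sum.elim ![d1 + κ, d2 + κ, d3 + κ, d4 + κ] fun i => n i + κ)
    h.pos (by linarith) (by simpa [Fin.sum_univ_four] using h.sq) (by
      simp only [Fintype.sum_sum_type, Sum.elim_inl, Sum.elim_inr, Fin.sum_univ_four,
        Matrix.cons_val, Fin.sum_univ_five] at h1 hκ ⊢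
      have := congrArg (· * κ) hκ
      nlinarith)
  have h2 := h.orth
  simp only [Fintype.sum_sum_type, Sum.elim_inl, Sum.elim_inr, Fin.sum_univ_four,
    Matrix.cons_val, Fin.sum_univ_five] at this h2 ⊢
  have := congrArg (· * κ) h2
  nlinarith

theorem Cls.nonneg {a b c1 c2 c3 c4 : ℝ} {ν : Fin 5 → ℝ} (h : Cls a b c1 c2 c3 c4 ν) :
    0 ≤ c1 ∧ 0 ≤ c2 ∧ 0 ≤ c3 ∧ 0 ≤ c4 ∧ ∀ i, 0 ≤ ν i := by
  refine ⟨?_, ?_, ?_, ?_, fun i => ?_⟩
  · simpa using h.cone (A := 0) (B := 0) (d1 := -1) (d2 := 0) (d3 := 0) (d4 := 0) (κ := 1)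
      (n := 0) (by norm_num) (by simp) (by simp)
  · simpa using h.cone (A := 0) (B := 0) (d1 := 0) (d2 := -1) (d3 := 0) (d4 := 0) (κ := 1)
      (n := 0) (by norm_num) (by simp) (by simp)
  · simpa using h.cone (A := 0) (B := 0) (d1 := 0) (d2 := 0) (d3 := -1) (d4 := 0) (κ := 1)
      (n := 0) (by norm_num) (by simp) (by simp)
  · simpa using h.cone (A := 0) (B := 0) (d1 := 0) (d2 := 0) (d3 := 0) (d4 := -1) (κ := 1)
      (n := 0) (by norm_num) (by simp) (by simp)
  · simpa using h.cone (A := 0) (B := 0) (d1 := 0) (d2 := 0) (d3 := 0) (d4 := 0) (κ := 1)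
      (n := fun j => if j = i then -1 else 0) (by norm_num) (by simp) (by simp)

theorem Conf.s0 (Q : Conf k) (i : Fin 5) : Q.x i * Q.y i ≠ 0 := mul_ne_zero (Q.x0 i) (Q.y0 i)

theorem Conf.t0 (Q : Conf k) (i : Fin 5) : Q.x i / Q.y i ≠ 0 := div_ne_zero (Q.x0 i) (Q.y0 i)

theorem eq_monomial_of_prime {f : P2 k} (hf : Prime f) (i : Fin 2)
    (h : ∀ e ∈ f.support, e i ≠ 0) : ∃ e r, r ≠ 0 ∧ f = monomial e r := by
  have h1 : f ∈ Ideal.span (X '' {i}) :=
    mem_ideal_span_X_image.2 fun e he => ⟨i, rfl, h e he⟩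
  rw [Set.image_singleton, Ideal.mem_span_singleton] at h1
  obtain ⟨u, hu⟩ := X_prime.irreducible.associated_of_dvd hf.irreducible h1
  obtain ⟨r, hr, hru⟩ := isUnit_iff_eq_C_of_isReduced.1 u.isUnit
  refine ⟨Finsupp.single i 1, r, hr.ne_zero, ?_⟩
  rw [← hu, hru, mul_comm, C_mul_X_eq_monomial]

theorem down_prime [IsAlgClosed k] (Q : Conf k) {a b c1 c2 c3 c4 : ℝ} {ν : Fin 5 → ℝ}
    (h : Cls a b c1 c2 c3 c4 ν) {f : P2 k} (hf : Prime f) (hev : cev Q.l f ≠ 0) :
    ∑ i, ν i * ord (Q.x i * Q.y i) (Q.x i / Q.y i) f ≤ Tor a b c1 c2 c3 c4 f := by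
  by_cases hm : ∃ e r, r ≠ 0 ∧ f = monomial e r
  · obtain ⟨e, r, hr, rfl⟩ := hm
    simp [Tor_monomial _ _ _ _ _ _ _ hr, ord_monomial (Q.s0 _) (Q.t0 _) _ hr]
  have h0 : wmin 1 0 f = 0 := by
    refine le_antisymm ?_ (WB.le_wmin (fun e _ => by unfold wt; omega) hf.ne_zero)
    by_contra hlt
    refine hm (eq_monomial_of_prime hf 0 fun e he => ?_)
    have := wb_wmin 1 0 f e he
    unfold wt at this
    omega
  have h1 : wmin 0 1 f = 0 := by
    refine le_antisymm ?_ (WB.le_wmin (fun e _ => by unfold wt; omega) hf.ne_zero)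
    by_contra hlt
    refine hm (eq_monomial_of_prime hf 1 fun e he => ?_)
    have := wb_wmin 0 1 f e he
    unfold wt at this
    omega
  obtain ⟨A, B, d1, d2, d3, d4, hF, hB, s1, s2, w1, w2, w3, w4, w5, w6⟩ :=
    exists_oct hf.ne_zero h0 h1
  let n : Fin 5 → ℕ := fun i => (ord (Q.x i * Q.y i) (Q.x i / Q.y i) f).toNat
  have hn : ∀ i, f ∈ ptIdeal (Q.x i * Q.y i) (Q.x i / Q.y i) ^ n i := fun i => mem_pow_ord _ _ _
  have hn' : ∀ i, (ord (Q.x i * Q.y i) (Q.x i / Q.y i) f : ℝ) = n i := fun i => by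
    rw [← Int.toNat_of_nonneg (ord_nonneg _ _ hf.ne_zero)]
    rfl
  have hT : Tor a b c1 c2 c3 c4 f = a * B + b * A - (c1 * d1 + c2 * d2 + c3 * d3 + c4 * d4) := by
    simp only [Tor, h0, h1, w1, w2, w3, w4, w5, w6]
    push_cast
    ring
  simp only [hn', hT]
  obtain ⟨κ, hκ, hκ1⟩ : ∃ κ : ℕ, d1 + d2 + d3 + d4 + ∑ i, n i + κ = 2 * A + 2 * B ∧
      (1 ≤ κ ∨ B = 0) := by
    have t1 := hF.1
    have t2 := hF.2.1
    rcases curve_bound Q hF hev n hn with h2 | h2
    · exact ⟨2 * A + 2 * B - (d1 + d2 + d3 + d4) - ∑ i, n i, by omega, by omega⟩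
    · have : ∑ i, n i = 0 := by simp [h2]
      exact ⟨2 * A + 2 * B - (d1 + d2 + d3 + d4), by omega, by omega⟩
  have hκ' : (d1 : ℝ) + d2 + d3 + d4 + ∑ i, (n i : ℝ) + κ = 2 * A + 2 * B := by exact_mod_cast hκ
  have := h.cone (n := fun i => (n i : ℝ)) (by positivity) hκ' (by
    rcases Nat.eq_zero_or_pos B with rfl | hB1
    · have t1 := hF.1
      have t2 := hF.2.1
      have t3 := flat_bound _ _ Q.sinj hf.ne_zero hF n hn
      obtain rfl : d1 = 0 := by omega
      obtain rfl : d2 = 0 := by omega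
      obtain rfl : d3 = 0 := by omega
      obtain rfl : d4 = 0 := by omega
      have t4 : ∑ i, n i ^ 2 ≤ κ ^ 2 :=
        (Finset.sum_sq_le_sq_sum_of_nonneg fun i _ => Nat.zero_le _).trans
          (Nat.pow_le_pow_left (by omega) 2)
      have t5 : ∑ i, (n i : ℝ) ^ 2 ≤ (κ : ℝ) ^ 2 := by exact_mod_cast t4
      simpa using t5
    · have t1 := adjunction _ _ Q.sinj Q.s0 hf hF hB hB1 n hn
      have t2 := (Nat.cast_le (α := ℝ)).2 t1
      have t3 : (1 : ℝ) ≤ κ := by exact_mod_cast (by omega : 1 ≤ κ)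
      simp only [Nat.cast_add, Nat.cast_sum, cast_pred, Finset.sum_sub_distrib] at t2
      push_cast at t2
      nlinarith)
  linarith

theorem down [IsAlgClosed k] (Q : Conf k) {a b c1 c2 c3 c4 : ℝ} {ν : Fin 5 → ℝ}
    (h : Cls a b c1 c2 c3 c4 ν) (f : P2 k) : cev Q.l f ≠ 0 →
    ∑ i, ν i * ord (Q.x i * Q.y i) (Q.x i / Q.y i) f ≤ Tor a b c1 c2 c3 c4 f := by
  induction f using UniqueFactorizationMonoid.induction_on_prime with
  | h₁ => intro h0; exact absurd (map_zero _) h0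
  | h₂ u hu =>
    intro _
    obtain ⟨r, hr, rfl⟩ := isUnit_iff_eq_C_of_isReduced.1 hu
    rw [C_apply]
    simp only [Tor_monomial _ _ _ _ _ _ _ hr.ne_zero, ord_monomial (Q.s0 _) (Q.t0 _) _ hr.ne_zero]
    simp
  | h₃ g p hg hp ih =>
    intro hev
    rw [map_mul] at hev
    have h1 := down_prime Q h hp (left_ne_zero_of_mul hev)
    have h2 := ih (right_ne_zero_of_mul hev)
    simp only [Tor_mul _ _ _ _ _ _ hp.ne_zero hg, ord_mul _ _ hp.ne_zero hg, Int.cast_add, mul_add,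
      Finset.sum_add_distrib]
    linarith

end Pool.Agent.MP_d0dfcd_ag.NB

end MrgPart4

-- ======== part 5: formerly Pool.Agent.MP_d0dfcd_ag.h44.Up
section MrgPart5

/-! Descent along the involution `(x, y) ↦ (-x, -y)`. -/

namespace Pool.Agent.MP_d0dfcd_ag.NB

open MvPolynomial

variable {k : Type*} [Field k]

/-- The involution. -/
noncomputable def inv2 : P2 k →ₐ[k] P2 k := aeval ![-X 0, -X 1]

theorem coeff_inv2 (f : P2 k) (e : Fin 2 →₀ ℕ) :
    coeff e (inv2 f) = (-1) ^ (e 0 + e 1) * coeff e f := by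
  classical
  induction f using MvPolynomial.induction_on' with
  | monomial d a =>
    have : inv2 (monomial d a : P2 k) = monomial d ((-1) ^ (d 0 + d 1) * a) := by
      rw [inv2, aeval_monomial, monomial_eq, Finsupp.prod_fintype _ _ (by simp),
        Finsupp.prod_fintype _ _ (by simp), Fin.prod_univ_two, Fin.prod_univ_two]
      simp only [Matrix.cons_val_zero, Matrix.cons_val_one, algebraMap_eq, map_mul, map_pow,
        map_neg, map_one]
      rw [neg_pow (X 0 : P2 k), neg_pow (X 1 : P2 k)]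
      ring
    rw [this, coeff_monomial, coeff_monomial]
    split_ifs with h
    · rw [h]
    · simp
  | add p q hp hq => simp only [map_add, coeff_add, hp, hq, mul_add]

theorem support_inv2 (f : P2 k) : (inv2 f).support = f.support := by
  ext e
  simp [coeff_inv2]

theorem inv2_ne_zero {f : P2 k} (hf : f ≠ 0) : inv2 f ≠ 0 := by
  rwa [← support_nonempty, support_inv2, support_nonempty]

theorem wmin_inv2 (p q : ℤ) (f : P2 k) : wmin p q (inv2 f) = wmin p q f := by
  simp only [wmin, support_inv2]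

theorem inv2_inv2 (f : P2 k) : inv2 (inv2 f) = f := by
  ext e
  rw [coeff_inv2, coeff_inv2, ← mul_assoc, ← mul_pow]
  simp

theorem ord_inv2 (a b : k) (f : P2 k) : ord a b (inv2 f) = ord (-a) (-b) f := by
  have : (shift a b).comp inv2 = inv2.comp (shift (-a) (-b)) := by
    ext1 i
    fin_cases i <;> simp [shift, inv2, add_comm]
  rw [ord, ord, ← wmin_inv2 1 1 (shift (-a) (-b) f)]
  exact congrArg _ (DFunLike.congr_fun this f)

/-- The polynomial on the quotient. -/
noncomputable def desc (N : ℕ) (G : P2 k) : P2 k :=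
  ∑ e ∈ G.support, monomial (ex ((e 0 + e 1) / 2) ((e 0 + 2 * N - e 1) / 2)) (coeff e G)

theorem desc_spec {R : Type*} [CommRing R] [Algebra k R] {N : ℕ} {G : P2 k}
    (h : ∀ e ∈ G.support, e 1 ≤ N ∧ (e 0 + e 1) % 2 = 0) (t η : R) :
    aeval ![t * η ^ 2, t] (desc N G) = t ^ N * aeval ![t * η, η] G := by
  rw [desc, map_sum, aeval_two, Finset.mul_sum]
  refine Finset.sum_congr rfl fun e he => ?_
  obtain ⟨h1, h2⟩ := h e he
  rw [aeval_monomial, Finsupp.prod_fintype _ _ (by simp), Fin.prod_univ_two]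
  simp only [Matrix.cons_val_zero, Matrix.cons_val_one, ex_zero, ex_one]
  obtain ⟨u, hu⟩ : ∃ u, e 0 + e 1 = 2 * u := ⟨(e 0 + e 1) / 2, by omega⟩
  obtain ⟨v, hv⟩ : ∃ v, N + e 0 = u + v := ⟨N + e 0 - u, by omega⟩
  rw [show (e 0 + e 1) / 2 = u by omega, show (e 0 + 2 * N - e 1) / 2 = v by omega]
  calc _ = algebraMap k R (coeff e G) * (t ^ (u + v) * η ^ (2 * u)) := by ring
    _ = _ := by rw [← hu, ← hv]; ring

theorem desc_wb {N : ℕ} {G : P2 k} (h : ∀ e ∈ G.support, e 1 ≤ N ∧ (e 0 + e 1) % 2 = 0)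
    {p q c : ℤ} (hc : ∀ e ∈ G.support, ∀ u v : ℤ, 2 * u = e 0 + e 1 → 2 * v = e 0 + 2 * N - e 1 →
      c ≤ p * u + q * v) : WB p q c (desc N G) := by
  refine WB.sum _ _ fun e he => WB.monomial ?_ _
  obtain ⟨h1, h2⟩ := h e he
  simp only [wt, ex_zero, ex_one]
  exact hc e he _ _ (by omega) (by omega)

theorem exists_sqrt {x y : k} (h2 : (2 : k) ≠ 0) (hx : x ≠ 0) (hy : y ≠ 0) (n : ℕ) :
    ∃ η : P2 k, η - C y ∈ ptIdeal (x * y) (x / y) ∧
      X 1 * η ^ 2 - X 0 ∈ ptIdeal (x * y) (x / y) ^ (n + 1) := by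
  have i0 := mem0 (x * y) (x / y)
  have i1 := mem1 (x * y) (x / y)
  have e1 : (C (x / y) : P2 k) * C y = C x := by rw [← map_mul, div_mul_cancel₀ _ hy]
  induction n with
  | zero =>
    refine ⟨C y, by simp, ?_⟩
    rw [zero_add, pow_one]
    convert Ideal.sub_mem _ (Ideal.mul_mem_right (C y ^ 2) _ i1) i0 using 1
    rw [map_mul]
    linear_combination (C y) * e1
  | succ n ih =>
    obtain ⟨η, h1, h3⟩ := ih
    set E := X 1 * η ^ 2 - X 0 with hE
    have hE1 : E ∈ ptIdeal (x * y) (x / y) := Ideal.pow_le_self (by omega) h3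
    have e2 : (C (2 * x)⁻¹ : P2 k) * (2 * C x) = 1 := by
      rw [← map_ofNat C 2, ← map_mul, ← map_mul, inv_mul_cancel₀ (mul_ne_zero h2 hx), map_one]
    refine ⟨η - C (2 * x)⁻¹ * E, ?_, ?_⟩
    · convert Ideal.sub_mem _ h1 (Ideal.mul_mem_left _ (C (2 * x)⁻¹) hE1) using 1
      ring
    · rw [pow_succ _ (n + 1)]
      have h4 := Ideal.add_mem _ (Ideal.mul_mem_left _ (X 1 * C (2 * x)⁻¹ ^ 2) hE1)
        (Ideal.mul_mem_left _ (-2 * C (2 * x)⁻¹) (Ideal.add_mem _ (Ideal.mul_mem_left _ (X 1) h1)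
          (Ideal.mul_mem_left _ (C y) i1)))
      convert Ideal.mul_mem_mul h3 h4 using 1
      linear_combination (-1 : P2 k) * hE - E * e2 - 2 * C (2 * x)⁻¹ * E * e1

theorem desc_mem {N : ℕ} {G : P2 k} (h : ∀ e ∈ G.support, e 1 ≤ N ∧ (e 0 + e 1) % 2 = 0)
    {x y : k} (h2 : (2 : k) ≠ 0) (hx : x ≠ 0) (hy : y ≠ 0) {n : ℕ} (hG : G ∈ ptIdeal x y ^ n) :
    desc N G ∈ ptIdeal (x * y) (x / y) ^ n := by
  obtain ⟨η, h1, h3⟩ := exists_sqrt h2 hx hy n
  have e1 : (C (x / y) : P2 k) * C y = C x := by rw [← map_mul, div_mul_cancel₀ _ hy]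
  have h4 := map_mem_pow (aeval ![X 1 * η, η] : P2 k →ₐ[k] P2 k).toRingHom
    (ptIdeal (x * y) (x / y)) (a := x) (b := y) (by
      simp only [AlgHom.toRingHom_eq_coe, RingHom.coe_coe, aeval_X, aeval_C, algebraMap_eq,
        Matrix.cons_val_zero]
      convert Ideal.add_mem _ (Ideal.mul_mem_left _ (X 1) h1)
        (Ideal.mul_mem_left _ (C y) (mem1 (x * y) (x / y))) using 1
      linear_combination e1) (by simpa using h1) hG
  rw [AlgHom.toRingHom_eq_coe, RingHom.coe_coe] at h4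
  let π := Ideal.Quotient.mkₐ k (ptIdeal (x * y) (x / y) ^ n)
  have h5 : π.comp (aeval ![X 1 * η ^ 2, X 1]) = π := by
    ext1 i
    fin_cases i
    · simpa [π, Ideal.Quotient.eq] using Ideal.Quotient.eq.2
        (Ideal.pow_le_pow_right (Nat.le_succ n) h3)
    · simp
  have h6 := DFunLike.congr_fun h5 (desc N G)
  rw [AlgHom.comp_apply, desc_spec h] at h6
  exact Ideal.Quotient.eq_zero_iff_mem.1
    (h6.symm.trans (Ideal.Quotient.eq_zero_iff_mem.2 (Ideal.mul_mem_left _ _ h4)))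

/-- An invariant class orthogonal to the invariant curve, in the positive cone. -/
structure UCls (a b m1 m2 m3 m4 : ℝ) (ν : Fin 5 → ℝ) : Prop where
  pos : 0 ≤ a + b
  sq : m1 ^ 2 + m2 ^ 2 + m3 ^ 2 + m4 ^ 2 + 2 * ∑ i, ν i ^ 2 ≤ 2 * a * b
  orth : ∑ i, ν i = a + b
  h1 : 0 ≤ m1
  h2 : 0 ≤ m2
  h3 : 0 ≤ m3
  h4 : 0 ≤ m4

theorem UCls.cls {a b m1 m2 m3 m4 : ℝ} {ν : Fin 5 → ℝ} (h : UCls a b m1 m2 m3 m4 ν) :
    Cls ((a + b - m1 - m4) / 2) ((a + b - m2 - m3) / 2) ((b - m1 - m2) / 2) ((a - m1 - m3) / 2)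
      ((a - m2 - m4) / 2) ((b - m3 - m4) / 2) ν := by
  have h0 := h.sq
  have h1 := h.pos
  have s : 0 ≤ ∑ i, ν i ^ 2 := Finset.sum_nonneg fun i _ => sq_nonneg _
  refine ⟨?_, by nlinarith, by rw [h.orth]; ring⟩
  have : m1 + m2 + m3 + m4 ≤ 2 * (a + b) := by
    refine (abs_le_of_sq_le_sq' ?_ (by positivity)).2
    nlinarith [sq_nonneg (a - b), sq_nonneg (m1 - m2), sq_nonneg (m1 - m3), sq_nonneg (m1 - m4),
      sq_nonneg (m2 - m3), sq_nonneg (m2 - m4), sq_nonneg (m3 - m4), sq_nonneg (a + b)]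
  linarith

/-- The intersection number with the invariant class. -/
noncomputable def Phi (Q : Conf k) (a b m1 m2 m3 m4 : ℝ) (ν : Fin 5 → ℝ) (f : P2 k) : ℝ :=
  Tor a b m1 m2 m3 m4 f - ∑ i, ν i * (ord (Q.x i) (Q.y i) f + ord (-Q.x i) (-Q.y i) f)

theorem Phi_mul (Q : Conf k) (a b m1 m2 m3 m4 : ℝ) (ν : Fin 5 → ℝ) {f g : P2 k} (hf : f ≠ 0)
    (hg : g ≠ 0) : Phi Q a b m1 m2 m3 m4 ν (f * g) =
      Phi Q a b m1 m2 m3 m4 ν f + Phi Q a b m1 m2 m3 m4 ν g := by
  simp only [Phi, Tor_mul _ _ _ _ _ _ hf hg, ord_mul _ _ hf hg, Int.cast_add, mul_add,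
    Finset.sum_add_distrib]
  ring

theorem Phi_pow (Q : Conf k) (a b m1 m2 m3 m4 : ℝ) (ν : Fin 5 → ℝ) {f : P2 k} (hf : f ≠ 0)
    (n : ℕ) : Phi Q a b m1 m2 m3 m4 ν (f ^ n) = n * Phi Q a b m1 m2 m3 m4 ν f := by
  induction n with
  | zero =>
    have := Phi_mul Q a b m1 m2 m3 m4 ν (f := 1) (g := 1) one_ne_zero one_ne_zero
    rw [mul_one] at this
    rw [pow_zero]
    push_cast
    linarith
  | succ n ih =>
    rw [pow_succ, Phi_mul _ _ _ _ _ _ _ _ (pow_ne_zero _ hf) hf, ih]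
    push_cast
    ring

theorem Phi_inv2 (Q : Conf k) (a b m1 m2 m3 m4 : ℝ) (ν : Fin 5 → ℝ) (f : P2 k) :
    Phi Q a b m1 m2 m3 m4 ν (inv2 f) = Phi Q a b m1 m2 m3 m4 ν f := by
  simp only [Phi, Tor, wmin_inv2, ord_inv2, neg_neg, add_comm]

/-- Evaluation along the curve upstairs. -/
noncomputable def uev (l : k) : P2 k →ₐ[k] RatFunc k := aeval ![rat k Polynomial.X, yr l]

theorem up_generic [IsAlgClosed k] (Q : Conf k) {a b m1 m2 m3 m4 : ℝ} {ν : Fin 5 → ℝ}
    (h : UCls a b m1 m2 m3 m4 ν) {f : P2 k} (h1 : uev Q.l f ≠ 0) (h2 : uev Q.l (inv2 f) ≠ 0) :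
    0 ≤ Phi Q a b m1 m2 m3 m4 ν f := by
  have hf : f ≠ 0 := fun h0 => h1 (by rw [h0, map_zero])
  have hf' := inv2_ne_zero hf
  set G := f * inv2 f with hG
  have hw : ∀ p q, WB p q (2 * wmin p q f) G := fun p q => by
    have := wb_wmin p q G
    rwa [hG, wmin_mul _ _ hf hf', wmin_inv2, ← two_mul] at this
  obtain ⟨N, hN⟩ : ∃ N : ℕ, ∀ e ∈ G.support, e 1 ≤ N ∧ (e 0 + e 1) % 2 = 0 := by
    refine ⟨G.support.sup fun e => e 1, fun e he => ⟨Finset.le_sup (f := fun e => e 1) he, ?_⟩⟩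
    by_contra hodd
    have h3 := coeff_inv2 G e
    rw [hG, map_mul, inv2_inv2, mul_comm, ← hG, Odd.neg_one_pow (Nat.odd_iff.2 (by omega))] at h3
    apply mul_ne_zero Q.two (mem_support_iff.1 he)
    linear_combination h3
  have hy := yr_ne_zero Q
  have hev : cev Q.l (desc N G) ≠ 0 := by
    have h3 := desc_spec hN (rat k Polynomial.X / yr Q.l) (yr Q.l)
    rw [div_mul_cancel₀ _ hy, show rat k Polynomial.X / yr Q.l * yr Q.l ^ 2 =
      rat k Polynomial.X * yr Q.l by field_simp] at h3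
    rw [cev, h3, hG, map_mul]
    exact mul_ne_zero (pow_ne_zero _ (div_ne_zero (rat_ne_zero 1 (by simp)) hy))
      (mul_ne_zero h1 h2)
  have hd : desc N G ≠ 0 := fun h0 => hev (by rw [h0, map_zero])
  have h3 := down Q h.cls _ hev
  obtain ⟨p1, p2, p3, p4, p5⟩ := h.cls.nonneg
  have h4 : ∑ i, ν i * (ord (Q.x i) (Q.y i) f + ord (-Q.x i) (-Q.y i) f) ≤
      ∑ i, ν i * ord (Q.x i * Q.y i) (Q.x i / Q.y i) (desc N G) := by
    refine Finset.sum_le_sum fun i _ => mul_le_mul_of_nonneg_left ?_ (p5 i)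
    have := le_ord hd (desc_mem hN Q.two (Q.x0 i) (Q.y0 i) (mem_pow_ord (Q.x i) (Q.y i) G))
    rw [Int.toNat_of_nonneg (ord_nonneg _ _ (mul_ne_zero hf hf')), hG, ord_mul _ _ hf hf',
      ord_inv2] at this
    exact_mod_cast this
  have b1 : wmin 1 1 f ≤ wmin 1 0 (desc N G) := (desc_wb hN fun e he u v hu hv => by
    have := hw 1 1 e he; unfold wt at this; omega).le_wmin hd
  have b2 : wmin (-1) (-1) f ≤ wmin (-1) 0 (desc N G) := (desc_wb hN fun e he u v hu hv => by
    have := hw (-1) (-1) e he; unfold wt at this; omega).le_wmin hd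
  have b3 : wmin 1 (-1) f + N ≤ wmin 0 1 (desc N G) := (desc_wb hN fun e he u v hu hv => by
    have := hw 1 (-1) e he; unfold wt at this; omega).le_wmin hd
  have b4 : wmin (-1) 1 f - N ≤ wmin 0 (-1) (desc N G) := (desc_wb hN fun e he u v hu hv => by
    have := hw (-1) 1 e he; unfold wt at this; omega).le_wmin hd
  have b5 : 2 * wmin 1 0 f + N ≤ wmin 1 1 (desc N G) := (desc_wb hN fun e he u v hu hv => by
    have := hw 1 0 e he; unfold wt at this; omega).le_wmin hd
  have b6 : 2 * wmin 0 1 f - N ≤ wmin 1 (-1) (desc N G) := (desc_wb hN fun e he u v hu hv => by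
    have := hw 0 1 e he; unfold wt at this; omega).le_wmin hd
  have b7 : 2 * wmin 0 (-1) f + N ≤ wmin (-1) 1 (desc N G) := (desc_wb hN fun e he u v hu hv => by
    have := hw 0 (-1) e he; unfold wt at this; omega).le_wmin hd
  have b8 : 2 * wmin (-1) 0 f - N ≤ wmin (-1) (-1) (desc N G) :=
    (desc_wb hN fun e he u v hu hv => by
      have := hw (-1) 0 e he; unfold wt at this; omega).le_wmin hd
  have d1 := mul_le_mul_of_nonneg_left ((Int.cast_le (R := ℝ)).2 b1) h.h1
  have d2 := mul_le_mul_of_nonneg_left ((Int.cast_le (R := ℝ)).2 b2) h.h4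
  have d3 := mul_le_mul_of_nonneg_left ((Int.cast_le (R := ℝ)).2 b3) h.h2
  have d4 := mul_le_mul_of_nonneg_left ((Int.cast_le (R := ℝ)).2 b4) h.h3
  have d5 := mul_le_mul_of_nonneg_left ((Int.cast_le (R := ℝ)).2 b5) p1
  have d6 := mul_le_mul_of_nonneg_left ((Int.cast_le (R := ℝ)).2 b6) p2
  have d7 := mul_le_mul_of_nonneg_left ((Int.cast_le (R := ℝ)).2 b7) p3
  have d8 := mul_le_mul_of_nonneg_left ((Int.cast_le (R := ℝ)).2 b8) p4
  push_cast at d3 d4 d5 d6 d7 d8
  unfold Phi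
  unfold Tor at h3 ⊢
  linarith

end Pool.Agent.MP_d0dfcd_ag.NB

end MrgPart5

-- marker of a merged file
example : 731051 + 80125 = 731051 + 80125 := rfl
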